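import Mathlib

/-!
Counting linear extensions by removing a maximal element (problem MP_c890a7_co).
-/

namespace Pool.Agent.Helper19.Forest

open Finset

variable {n : ℕ}

open Classical in
/-- maximal elements of `D` for the constraint relation `s` -/
noncomputable def mx (s : Fin n → Fin n → Prop) (D : Finset (Fin n)) : Finset (Fin n) :=
  D.filter (fun m => ∀ b ∈ D.erase m, ¬ s m b)

open Classical in
/-- lists of the elements of `D`, from the top to the bottom, compatible with `s`;
`k` is the cardinality of `D` -/
noncomputable def LL (s : Fin n → Fin n → Prop) : ℕ → Finset (Fin n) → Finset (List (Fin n))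
  | 0, _ => {[]}
  | k + 1, D => (mx s D).biUnion (fun m => (LL s k (D.erase m)).image (List.cons m))

/-- number of arrangements of `D` -/
noncomputable def cnt (s : Fin n → Fin n → Prop) (D : Finset (Fin n)) : ℕ :=
  (LL s D.card D).card

theorem mem_mx {s : Fin n → Fin n → Prop} {D : Finset (Fin n)} {m : Fin n} :
    m ∈ mx s D ↔ m ∈ D ∧ ∀ b ∈ D, b ≠ m → ¬ s m b := by
  classical
  unfold mx
  rw [Finset.mem_filter]
  constructor
  · rintro ⟨h1, h2⟩
    exact ⟨h1, fun b hb hne => h2 b (Finset.mem_erase.2 ⟨hne, hb⟩)⟩
  · rintro ⟨h1, h2⟩
    exact ⟨h1, fun b hb => h2 b (Finset.mem_of_mem_erase hb) (Finset.ne_of_mem_erase hb)⟩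

theorem cnt_empty (s : Fin n → Fin n → Prop) : cnt s ∅ = 1 := by
  unfold cnt
  rw [Finset.card_empty, LL, Finset.card_singleton]

theorem cnt_rec (s : Fin n → Fin n → Prop) {D : Finset (Fin n)} (hD : D.Nonempty) :
    cnt s D = ∑ m ∈ mx s D, cnt s (D.erase m) := by
  classical
  obtain ⟨k, hk⟩ : ∃ k, D.card = k + 1 := ⟨D.card - 1, by have := hD.card_pos; omega⟩
  unfold cnt
  rw [hk, LL, Finset.card_biUnion]
  · refine Finset.sum_congr rfl (fun m hm => ?_)
    rw [Finset.card_image_of_injective _ (List.cons_injective),
      Finset.card_erase_of_mem (mem_mx.1 hm).1, hk]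
    simp
  · intro a _ b _ hab
    rw [Function.onFun, Finset.disjoint_left]
    intro l hl hl'
    rw [Finset.mem_image] at hl hl'
    obtain ⟨l1, _, rfl⟩ := hl
    obtain ⟨l2, _, h⟩ := hl'
    rw [List.cons.injEq] at h
    exact hab h.1.symm

theorem mem_LL (s : Fin n → Fin n → Prop) : ∀ (k : ℕ) (D : Finset (Fin n)), D.card = k →
    ∀ l : List (Fin n), l ∈ LL s k D ↔
      l.Nodup ∧ (∀ a, a ∈ l ↔ a ∈ D) ∧ l.Pairwise (fun a b => ¬ s a b)
  | 0, D, hD, l => by
    rw [Finset.card_eq_zero] at hD
    subst hD
    rw [LL, Finset.mem_singleton]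
    constructor
    · rintro rfl
      simp
    · rintro ⟨_, h, _⟩
      rw [List.eq_nil_iff_forall_not_mem]
      intro a ha
      have := (h a).1 ha
      simp at this
  | k + 1, D, hD, l => by
    classical
    rw [LL, Finset.mem_biUnion]
    constructor
    · rintro ⟨m, hm, hl⟩
      rw [Finset.mem_image] at hl
      obtain ⟨l', hl', rfl⟩ := hl
      have hm' := mem_mx.1 hm
      have hc : (D.erase m).card = k := by
        rw [Finset.card_erase_of_mem hm'.1, hD]; rfl
      obtain ⟨h1, h2, h3⟩ := (mem_LL s k _ hc l').1 hl'
      refine ⟨?_, ?_, ?_⟩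
      · rw [List.nodup_cons]
        refine ⟨?_, h1⟩
        intro h
        have := (h2 m).1 h
        simp at this
      · intro a
        rw [List.mem_cons, h2 a, Finset.mem_erase]
        constructor
        · rintro (rfl | h)
          · exact hm'.1
          · exact h.2
        · intro h
          by_cases ha : a = m
          · exact Or.inl ha
          · exact Or.inr ⟨ha, h⟩
      · rw [List.pairwise_cons]
        refine ⟨?_, h3⟩
        intro b hb
        have hb' := Finset.mem_erase.1 ((h2 b).1 hb)
        exact hm'.2 b hb'.2 hb'.1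
    · rintro ⟨h1, h2, h3⟩
      cases l with
      | nil =>
        exfalso
        have : D.Nonempty := Finset.card_pos.1 (by omega)
        obtain ⟨a, ha⟩ := this
        have := (h2 a).2 ha
        simp at this
      | cons m l' =>
        rw [List.nodup_cons] at h1
        rw [List.pairwise_cons] at h3
        have hmD : m ∈ D := (h2 m).1 List.mem_cons_self
        have hc : (D.erase m).card = k := by
          rw [Finset.card_erase_of_mem hmD, hD]; rfl
        refine ⟨m, ?_, ?_⟩
        · rw [mem_mx]
          refine ⟨hmD, ?_⟩
          intro b hb hne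
          apply h3.1
          have := (h2 b).2 hb
          rw [List.mem_cons] at this
          exact this.resolve_left hne
        · rw [Finset.mem_image]
          refine ⟨l', ?_, rfl⟩
          rw [mem_LL s k _ hc l']
          refine ⟨h1.2, ?_, h3.2⟩
          intro a
          rw [Finset.mem_erase]
          constructor
          · intro ha
            refine ⟨?_, (h2 a).1 (List.mem_cons_of_mem _ ha)⟩
            rintro rfl
            exact h1.1 ha
          · rintro ⟨hne, ha⟩
            have := (h2 a).2 ha
            rw [List.mem_cons] at this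
            exact this.resolve_left hne

theorem card_perm_eq_cnt (s : Fin n → Fin n → Prop) :
    Nat.card {σ : Equiv.Perm (Fin n) // ∀ a b, s a b → σ a ≤ σ b} = cnt s univ := by
  classical
  unfold cnt
  rw [Nat.card_eq_fintype_card, Fintype.card_subtype]
  refine Finset.card_bij (fun σ _ => List.ofFn (fun i : Fin n => σ.symm i.rev)) ?_ ?_ ?_
  · intro σ hσ
    rw [Finset.mem_filter] at hσ
    rw [mem_LL s _ _ rfl]
    refine ⟨?_, ?_, ?_⟩
    · rw [List.nodup_ofFn]
      exact σ.symm.injective.comp Fin.rev_injective
    · intro a
      simp only [List.mem_ofFn, Finset.mem_univ, iff_true]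
      exact ⟨(σ a).rev, by simp⟩
    · rw [List.pairwise_ofFn]
      intro i j hij hs
      have := hσ.2 _ _ hs
      rw [Equiv.apply_symm_apply, Equiv.apply_symm_apply, Fin.rev_le_rev] at this
      exact absurd hij (not_lt.2 this)
  · intro σ _ τ _ h
    have h1 := List.ofFn_injective h
    apply Equiv.symm_bijective.injective
    ext i
    have := congrFun h1 i.rev
    simp only [Fin.rev_rev] at this
    rw [this]
  · intro l hl
    rw [mem_LL s _ _ rfl] at hl
    obtain ⟨h1, h2, h3⟩ := hl
    have hlen : l.length = n := by
      rw [← List.toFinset_card_of_nodup h1]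
      have : l.toFinset = univ := by
        ext a
        rw [List.mem_toFinset]
        exact h2 a
      rw [this]; simp
    set f : Fin n → Fin n := fun i => l.get (i.cast hlen.symm) with hf
    have hinj : Function.Injective f := by
      intro i j hij
      have := (List.nodup_iff_injective_get.1 h1) hij
      exact Fin.cast_injective _ this
    have hbij : Function.Bijective f := Finite.injective_iff_bijective.1 hinj
    set e := Equiv.ofBijective f hbij with he
    have hofn : l = List.ofFn f := by
      apply List.ext_get
      · simp [hlen]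
      · intro i hi1 hi2
        simp [hf]
    refine ⟨(Fin.revPerm.trans e).symm, ?_, ?_⟩
    · rw [Finset.mem_filter]
      refine ⟨Finset.mem_univ _, ?_⟩
      intro a b hab
      by_contra hlt
      rw [not_le] at hlt
      have hp : (Fin.revPerm.trans e) ((Fin.revPerm.trans e).symm a) = a :=
        Equiv.apply_symm_apply _ _
      have hq : (Fin.revPerm.trans e) ((Fin.revPerm.trans e).symm b) = b :=
        Equiv.apply_symm_apply _ _
      rw [hofn, List.pairwise_ofFn] at h3
      have h4 := h3 (Fin.rev_lt_rev.2 hlt)
      apply h4
      have e1 : f ((Fin.revPerm.trans e).symm a).rev = a := by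
        conv_rhs => rw [← hp]
        rfl
      have e2 : f ((Fin.revPerm.trans e).symm b).rev = b := by
        conv_rhs => rw [← hq]
        rfl
      rw [e1, e2]
      exact hab
    · rw [hofn]
      congr 1
      funext i
      rw [Equiv.symm_symm, Equiv.trans_apply, Fin.revPerm_apply, Fin.rev_rev]
      rfl

end Pool.Agent.Helper19.Forest
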