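import Mathlib

/-!
The race probability of two hypoexponential variables, defined by its recursion
(problem MP_c890a7_co, rooted forests).
-/

namespace Pool.Agent.Helper19.Forest

/-- `race A B` is the probability that `∑_{a ∈ A} E_a / a > ∑_{b ∈ B} E'_b / b` for independent
standard exponential variables; we only use the recursion. -/
noncomputable def race : List ℕ → List ℕ → ℝ
  | [], _ => 0
  | _ :: _, [] => 1
  | a :: A, b :: B => ((a : ℝ) * race A (b :: B) + b * race (a :: A) B) / (a + b)
termination_by A B => A.length + B.length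

@[simp] theorem race_nil_left (B : List ℕ) : race [] B = 0 := by rw [race]

@[simp] theorem race_nil_right (a : ℕ) (A : List ℕ) : race (a :: A) [] = 1 := by rw [race]

theorem race_cons (a b : ℕ) (A B : List ℕ) :
    race (a :: A) (b :: B) = ((a : ℝ) * race A (b :: B) + b * race (a :: A) B) / (a + b) := by
  rw [race]

/-- all entries positive -/
def Pos (A : List ℕ) : Prop := ∀ a ∈ A, 0 < a

theorem Pos.tail {a : ℕ} {A : List ℕ} (h : Pos (a :: A)) : Pos A :=
  fun x hx => h x (List.mem_cons_of_mem _ hx)

theorem Pos.head {a : ℕ} {A : List ℕ} (h : Pos (a :: A)) : 0 < a :=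
  h a List.mem_cons_self

theorem Pos.append {A B : List ℕ} (h1 : Pos A) (h2 : Pos B) : Pos (A ++ B) := by
  intro a ha
  rw [List.mem_append] at ha
  exact ha.elim (h1 a) (h2 a)

theorem race_nonneg : ∀ A B : List ℕ, Pos A → Pos B → 0 ≤ race A B
  | [], _, _, _ => by simp
  | _ :: _, [], _, _ => by simp
  | a :: A, b :: B, hA, hB => by
    have h1 := race_nonneg A (b :: B) hA.tail hB
    have h2 := race_nonneg (a :: A) B hA hB.tail
    rw [race_cons]; positivity
termination_by A B => A.length + B.length

theorem race_add_race : ∀ A B : List ℕ, Pos A → Pos B → (A ≠ [] ∨ B ≠ []) →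
    race A B + race B A = 1
  | [], [], _, _, h => by simp at h
  | [], _ :: _, _, _, _ => by simp
  | _ :: _, [], _, _, _ => by simp
  | a :: A, b :: B, hA, hB, _ => by
    have h1 := race_add_race A (b :: B) hA.tail hB (Or.inr (by simp))
    have h2 := race_add_race (a :: A) B hA hB.tail (Or.inl (by simp))
    have ha : (0 : ℝ) < a := by exact_mod_cast hA.head
    have hb : (0 : ℝ) < b := by exact_mod_cast hB.head
    rw [race_cons, race_cons, add_comm (b : ℝ) a, ← add_div, div_eq_one_iff_eq (by positivity)]
    linear_combination (a : ℝ) * h1 + (b : ℝ) * h2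
termination_by A B => A.length + B.length

theorem race_self (A : List ℕ) (hA : Pos A) (h : A ≠ []) : race A A = 1 / 2 := by
  have := race_add_race A A hA hA (Or.inl h)
  linarith

/-- last entry is `1` -/
def EndOne (A : List ℕ) : Prop := ∃ A', A = A' ++ [1]

theorem EndOne.ne_nil {A : List ℕ} (h : EndOne A) : A ≠ [] := by
  obtain ⟨A', rfl⟩ := h; simp

theorem EndOne.cons {A : List ℕ} (h : EndOne A) (a : ℕ) : EndOne (a :: A) := by
  obtain ⟨A', rfl⟩ := h; exact ⟨a :: A', by simp⟩

theorem EndOne.append {C : List ℕ} (h : EndOne C) (A : List ℕ) : EndOne (A ++ C) := by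
  obtain ⟨C', rfl⟩ := h; exact ⟨A ++ C', by simp⟩

theorem EndOne.cases {a : ℕ} {A : List ℕ} (h : EndOne (a :: A)) :
    (a = 1 ∧ A = []) ∨ EndOne A := by
  obtain ⟨A', hA'⟩ := h
  cases A' with
  | nil => left; simpa using hA'
  | cons b B =>
    right
    rw [List.cons_append, List.cons.injEq] at hA'
    exact ⟨B, hA'.2⟩

/-- (I1) appending a rate `h` at the end changes the race by at most `1 / (1 + h)`. -/
theorem race_append_le {h : ℕ} (hh : 0 < h) : ∀ A B : List ℕ, (A = [] ∨ EndOne A) → Pos A →
    Pos B → race A B - race A (B ++ [h]) ≤ 1 / (1 + h)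
  | [], B, _, _, _ => by
    simp
    positivity
  | a :: A, [], hA, hpA, _ => by
    -- `1 - race (a :: A) [h] = a (1 - race A [h]) / (a + h)`
    have ha : (0 : ℝ) < a := by exact_mod_cast hpA.head
    have hh' : (0 : ℝ) < h := by exact_mod_cast hh
    have hA' : EndOne (a :: A) := hA.resolve_left (by simp)
    rw [List.nil_append, race_nil_right, race_cons, race_nil_right]
    rcases hA'.cases with ⟨rfl, rfl⟩ | hA''
    · rw [race_nil_left]
      push_cast
      field_simp
      linarith
    · have ih := race_append_le hh A [] (Or.inr hA'') hpA.tail (by intro x hx; simp at hx)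
      rw [List.nil_append] at ih
      obtain ⟨c, A', rfl⟩ : ∃ c A', A = c :: A' := List.exists_cons_of_ne_nil hA''.ne_nil
      rw [race_nil_right] at ih
      have e : 1 - ((a : ℝ) * race (c :: A') [h] + h * 1) / (a + h)
          = (a / (a + h)) * (1 - race (c :: A') [h]) := by
        field_simp; ring
      rw [e]
      have h1 : (a : ℝ) / (a + h) ≤ 1 := by
        rw [div_le_one (by positivity)]; linarith
      have h2 : 0 ≤ 1 - race (c :: A') [h] := by
        have := race_nonneg [h] (c :: A') (by intro x hx; simp at hx; omega) hpA.tail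
        have h3 := race_add_race (c :: A') [h] hpA.tail (by intro x hx; simp at hx; omega)
          (Or.inl (by simp))
        linarith
      calc (a : ℝ) / (a + h) * (1 - race (c :: A') [h]) ≤ 1 * (1 - race (c :: A') [h]) :=
            mul_le_mul_of_nonneg_right h1 h2
        _ ≤ _ := by rw [one_mul]; exact ih
  | a :: A, b :: B, hA, hpA, hpB => by
    have ha : (0 : ℝ) < a := by exact_mod_cast hpA.head
    have hb : (0 : ℝ) < b := by exact_mod_cast hpB.head
    have hA' : EndOne (a :: A) := hA.resolve_left (by simp)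
    have hA'' : A = [] ∨ EndOne A := hA'.cases.imp (fun h => h.2) id
    have ih1 := race_append_le hh A (b :: B) hA'' hpA.tail hpB
    have ih2 := race_append_le hh (a :: A) B hA hpA hpB.tail
    rw [List.cons_append] at ih1
    rw [List.cons_append, race_cons, race_cons]
    have e : ((a : ℝ) * race A (b :: B) + b * race (a :: A) B) / (a + b) -
        ((a : ℝ) * race A (b :: (B ++ [h])) + b * race (a :: A) (B ++ [h])) / (a + b)
        = (a * (race A (b :: B) - race A (b :: (B ++ [h]))) +
          b * (race (a :: A) B - race (a :: A) (B ++ [h]))) / (a + b) := by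
      field_simp; ring
    rw [e, div_le_iff₀ (by positivity)]
    nlinarith
termination_by A B => A.length + B.length

/-- (Phi) the exponential moment bound. -/
theorem race_le_prod : ∀ A B : List ℕ, Pos A → Pos B →
    race A B ≤ (A.map (fun a : ℕ => (a : ℝ) / (a - 1 / 2))).prod *
      (B.map (fun b : ℕ => (b : ℝ) / (b + 1 / 2))).prod
  | [], B, _, hB => by
    rw [race_nil_left]
    simp only [List.map_nil, List.prod_nil, one_mul]
    apply List.prod_nonneg
    intro x hx
    rw [List.mem_map] at hx
    obtain ⟨b, _, rfl⟩ := hx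
    positivity
  | a :: A, [], hA, _ => by
    rw [race_nil_right]
    simp only [List.map_nil, List.prod_nil, mul_one]
    have key : ∀ l : List ℕ, Pos l →
        1 ≤ (l.map (fun a : ℕ => (a : ℝ) / (a - 1 / 2))).prod := by
      intro l
      induction l with
      | nil => intro _; simp
      | cons c l ih =>
        intro hl
        rw [List.map_cons, List.prod_cons]
        have hc : (1 : ℝ) ≤ c := by exact_mod_cast hl.head
        have h1 : (1 : ℝ) ≤ (c : ℝ) / (c - 1 / 2) := by
          rw [le_div_iff₀ (by linarith)]; linarith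
        have h2 := ih hl.tail
        nlinarith
    exact key _ hA
  | a :: A, b :: B, hA, hB => by
    have ih1 := race_le_prod A (b :: B) hA.tail hB
    have ih2 := race_le_prod (a :: A) B hA hB.tail
    have ha : (1 : ℝ) ≤ a := by exact_mod_cast hA.head
    have hb : (1 : ℝ) ≤ b := by exact_mod_cast hB.head
    rw [race_cons, div_le_iff₀ (by linarith)]
    simp only [List.map_cons, List.prod_cons] at ih1 ih2 ⊢
    set p := (A.map (fun a : ℕ => (a : ℝ) / (a - 1 / 2))).prod
    set q := (B.map (fun b : ℕ => (b : ℝ) / (b + 1 / 2))).prod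
    have h1 : (0 : ℝ) < (a : ℝ) - 1 / 2 := by linarith
    calc (a : ℝ) * race A (b :: B) + b * race (a :: A) B
        ≤ a * (p * (b / (b + 1 / 2) * q)) + b * (a / (a - 1 / 2) * p * q) := by
          gcongr
      _ = (a / (a - 1 / 2)) * p * (b / (b + 1 / 2) * q) * (a + b) := by
          have h2 : (0 : ℝ) < (b : ℝ) + 1 / 2 := by linarith
          generalize hx : (a : ℝ) - 1 / 2 = x at h1 ⊢
          generalize hy : (b : ℝ) + 1 / 2 = y at h2 ⊢
          have hxy : (a : ℝ) + b = x + y := by rw [← hx, ← hy]; ring
          rw [hxy]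
          field_simp
termination_by A B => A.length + B.length


/-- (L) adding a rate `h` to the second list changes the race by at most `1 / h`. -/
theorem race_cons_diff : ∀ A B : List ℕ, EndOne A → EndOne B → Pos A → Pos B →
    ∀ h : ℕ, 0 < h → 0 ≤ race A B - race A (h :: B) ∧ race A B - race A (h :: B) ≤ 1 / h
  | [], _, hA, _, _, _ => absurd rfl hA.ne_nil
  | a :: A, B, hA, hB, hpA, hpB => by
    intro h hh
    have ha : (0 : ℝ) < a := by exact_mod_cast hpA.head
    have hh' : (0 : ℝ) < h := by exact_mod_cast hh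
    have hBne := hB.ne_nil
    have e : race (a :: A) B - race (a :: A) (h :: B)
        = (a / (a + h)) * (race (a :: A) B - race A (h :: B)) := by
      rw [race_cons]
      field_simp
      ring
    rw [e]
    rcases hA.cases with ⟨rfl, rfl⟩ | hA'
    · rw [race_nil_left, sub_zero]
      have h1 := race_nonneg [1] B hpA hpB
      have h2 : race [1] B ≤ 1 := by
        have := race_add_race [1] B hpA hpB (Or.inl (by simp))
        have h3 := race_nonneg B [1] hpB hpA
        linarith
      refine ⟨by positivity, ?_⟩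
      rw [div_mul_eq_mul_div, div_le_div_iff₀ (by positivity) hh']
      push_cast
      nlinarith
    · have hAne := hA'.ne_nil
      have d1 := race_cons_diff B A hB hA' hpB hpA.tail a hpA.head
      have d2 := race_cons_diff A B hA' hB hpA.tail hpB h hh
      have s1 := race_add_race (a :: A) B hpA hpB (Or.inl (by simp))
      have s2 := race_add_race A B hpA.tail hpB (Or.inl hAne)
      have e2 : race (a :: A) B - race A (h :: B)
          = (race B A - race B (a :: A)) + (race A B - race A (h :: B)) := by linarith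
      rw [e2]
      refine ⟨mul_nonneg (by positivity) (by linarith [d1.1, d2.1]), ?_⟩
      have h3 : (race B A - race B (a :: A)) + (race A B - race A (h :: B))
          ≤ 1 / a + 1 / h := by linarith [d1.2, d2.2]
      calc (a : ℝ) / (a + h) * ((race B A - race B (a :: A)) + (race A B - race A (h :: B)))
          ≤ (a / (a + h)) * (1 / a + 1 / h) := mul_le_mul_of_nonneg_left h3 (by positivity)
        _ = 1 / h := by
          field_simp
          ring
termination_by A B => A.length + B.length

/-- `t(A) = ∑ 1 / a` -/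
noncomputable def tt (A : List ℕ) : ℝ := (A.map (fun a : ℕ => 1 / (a : ℝ))).sum

/-- `q(A) = ∑ 1 / a ^ 2` -/
noncomputable def qq (A : List ℕ) : ℝ := (A.map (fun a : ℕ => 1 / (a : ℝ) ^ 2)).sum

@[simp] theorem tt_nil : tt [] = 0 := rfl
@[simp] theorem qq_nil : qq [] = 0 := rfl
@[simp] theorem tt_cons (a : ℕ) (A : List ℕ) : tt (a :: A) = 1 / a + tt A := by
  simp [tt]
@[simp] theorem qq_cons (a : ℕ) (A : List ℕ) : qq (a :: A) = 1 / (a : ℝ) ^ 2 + qq A := by
  simp [qq]

theorem tt_nonneg (A : List ℕ) : 0 ≤ tt A := by
  apply List.sum_nonneg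
  intro x hx
  rw [List.mem_map] at hx
  obtain ⟨a, _, rfl⟩ := hx
  positivity

theorem qq_nonneg (A : List ℕ) : 0 ≤ qq A := by
  apply List.sum_nonneg
  intro x hx
  rw [List.mem_map] at hx
  obtain ⟨a, _, rfl⟩ := hx
  positivity

theorem race_append_tt {C : List ℕ} (hC : EndOne C) (hpC : Pos C) : ∀ B : List ℕ, Pos B →
    0 ≤ 1 / 2 - race C (B ++ C) ∧ 1 / 2 - race C (B ++ C) ≤ tt B
  | [], _ => by
    rw [List.nil_append, race_self C hpC hC.ne_nil]
    simp
  | b :: B, hB => by
    have ih := race_append_tt hC hpC B hB.tail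
    have d := race_cons_diff C (B ++ C) hC (hC.append B) hpC (hB.tail.append hpC) b hB.head
    rw [List.cons_append, tt_cons]
    constructor <;> linarith [ih.1, ih.2, d.1, d.2]

/-- scaled difference -/
noncomputable def dd (A B : List ℕ) (h : ℕ) : ℝ := h * (race A B - race A (h :: B))

/-- the density at `0` -/
noncomputable def f0 (A B : List ℕ) : ℝ := dd B A.tail (A.headD 0)

theorem f0_cons (a : ℕ) (A B : List ℕ) : f0 (a :: A) B = dd B A a := rfl

theorem f0_symm {A B : List ℕ} (hA : Pos A) (hB : Pos B) (hA0 : A ≠ []) (hB0 : B ≠ []) :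
    f0 A B = f0 B A := by
  obtain ⟨a, A', rfl⟩ := List.exists_cons_of_ne_nil hA0
  obtain ⟨b, B', rfl⟩ := List.exists_cons_of_ne_nil hB0
  rw [f0_cons, f0_cons, dd, dd]
  have ha : (0 : ℝ) < a := by exact_mod_cast hA.head
  have hb : (0 : ℝ) < b := by exact_mod_cast hB.head
  have h1 := race_add_race (a :: A') (b :: B') hA hB (Or.inl hA0)
  have h2 := race_add_race A' (b :: B') hA.tail hB (Or.inr hB0)
  have h3 := race_cons a b A' B'
  have h4 : race (a :: A') (b :: B') * (a + b)
      = a * race A' (b :: B') + b * race (a :: A') B' := by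
    rw [h3]; field_simp
  have h5 : race (b :: B') A' - race (b :: B') (a :: A')
      = race (a :: A') (b :: B') - race A' (b :: B') := by linarith
  rw [h5]
  linear_combination h4

theorem f0_one {B : List ℕ} (hB : EndOne B) (hpB : Pos B) : f0 [1] B = race [1] B := by
  rw [f0_cons, dd]
  have h1 := race_add_race B [1] hpB (by intro x hx; simp at hx; omega) (Or.inl hB.ne_nil)
  obtain ⟨b, B', rfl⟩ := List.exists_cons_of_ne_nil hB.ne_nil
  rw [race_nil_right]
  push_cast
  linarith

/-- second difference bound -/
theorem dd_sub_f0 : ∀ A B : List ℕ, EndOne A → EndOne B → Pos A → Pos B →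
    ∀ h : ℕ, 0 < h → |dd A B h - f0 A B| ≤ 1 / h
  | [], _, hA, _, _, _ => absurd rfl hA.ne_nil
  | a :: A, B, hA, hB, hpA, hpB => by
    intro h hh
    have ha : (0 : ℝ) < a := by exact_mod_cast hpA.head
    have hh' : (0 : ℝ) < h := by exact_mod_cast hh
    rcases hA.cases with ⟨rfl, rfl⟩ | hA'
    · have h1 := race_nonneg [1] B hpA hpB
      have h2 : race [1] B ≤ 1 := by
        have := race_add_race [1] B hpA hpB (Or.inl (by simp))
        have h3 := race_nonneg B [1] hpB hpA
        linarith
      have e : dd [1] B h - f0 [1] B = -(race [1] B / (1 + h)) := by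
        rw [f0_one hB hpB, dd, race_cons, race_nil_left]
        push_cast
        field_simp
        ring
      rw [e, abs_neg, abs_of_nonneg (by positivity)]
      rw [div_le_div_iff₀ (by positivity) hh']
      nlinarith
    · have hAne := hA'.ne_nil
      have d1 := dd_sub_f0 B A hB hA' hpB hpA.tail a hpA.head
      have d2 := dd_sub_f0 A B hA' hB hpA.tail hpB h hh
      have hs := f0_symm hpA.tail hpB hAne hB.ne_nil
      rw [← hs] at d1
      rw [f0_cons]
      have s1 := race_add_race (a :: A) B hpA hpB (Or.inl (by simp))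
      have s2 := race_add_race A B hpA.tail hpB (Or.inl hAne)
      have e : dd (a :: A) B h - dd B A a = (a / (a + h)) * (dd A B h - dd B A a) := by
        have e1 : race B A - race B (a :: A) = race (a :: A) B - race A B := by linarith
        rw [dd, dd, dd, race_cons, e1]
        field_simp
        ring
      rw [e, abs_mul, abs_of_pos (by positivity : (0 : ℝ) < a / (a + h))]
      have h3 : |dd A B h - dd B A a| ≤ 1 / a + 1 / h := by
        rw [abs_le] at d1 d2 ⊢
        constructor <;> linarith [d1.1, d1.2, d2.1, d2.2]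
      calc (a : ℝ) / (a + h) * |dd A B h - dd B A a|
          ≤ (a / (a + h)) * (1 / a + 1 / h) := mul_le_mul_of_nonneg_left h3 (by positivity)
        _ = 1 / h := by
          field_simp
          ring
termination_by A B => A.length + B.length

theorem f0_bound {A B : List ℕ} (hA : EndOne A) (hB : EndOne B) (hpA : Pos A) (hpB : Pos B) :
    |f0 A B| ≤ 1 := by
  obtain ⟨a, A', rfl⟩ := List.exists_cons_of_ne_nil hA.ne_nil
  have ha : (0 : ℝ) < a := by exact_mod_cast hpA.head
  rcases hA.cases with ⟨rfl, rfl⟩ | hA'
  · rw [f0_one hB hpB]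
    have h1 := race_nonneg [1] B hpA hpB
    have := race_add_race [1] B hpA hpB (Or.inl (by simp))
    have h3 := race_nonneg B [1] hpB hpA
    rw [abs_le]
    constructor <;> linarith
  · rw [f0_cons, dd]
    have h1 := race_cons_diff B A' hB hA' hpB hpA.tail a hpA.head
    have h2 : (a : ℝ) * (race B A' - race B (a :: A')) ≤ a * (1 / a) :=
      mul_le_mul_of_nonneg_left h1.2 ha.le
    have h3 : (a : ℝ) * (1 / a) = 1 := by field_simp
    have h4 : 0 ≤ (a : ℝ) * (race B A' - race B (a :: A')) := mul_nonneg ha.le h1.1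
    rw [abs_le]
    constructor <;> linarith

theorem f0_append {C : List ℕ} (hC : EndOne C) (hpC : Pos C) : ∀ B : List ℕ, Pos B →
    |f0 C (B ++ C) - f0 C C| ≤ tt B
  | [], _ => by simp
  | b :: B, hB => by
    have ih := f0_append hC hpC B hB.tail
    have hBC := hC.append B
    have hpBC := hB.tail.append hpC
    have d := dd_sub_f0 C (B ++ C) hC hBC hpC hpBC b hB.head
    have e : f0 C (b :: B ++ C) = dd C (B ++ C) b := by
      rw [f0_symm hpC (hB.append hpC) hC.ne_nil (by simp), List.cons_append, f0_cons]
    rw [e, tt_cons]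
    rw [abs_le] at ih d ⊢
    constructor <;> linarith [ih.1, ih.2, d.1, d.2]

theorem race_append_expand {C : List ℕ} (hC : EndOne C) (hpC : Pos C) : ∀ B : List ℕ, Pos B →
    |race C (B ++ C) - 1 / 2 + f0 C C * tt B| ≤ (tt B ^ 2 + qq B) / 2
  | [], _ => by
    rw [List.nil_append, race_self C hpC hC.ne_nil]
    simp
  | b :: B, hB => by
    have ih := race_append_expand hC hpC B hB.tail
    have hBC := hC.append B
    have hpBC := hB.tail.append hpC
    have hb : (0 : ℝ) < b := by exact_mod_cast hB.head
    have d := dd_sub_f0 C (B ++ C) hC hBC hpC hpBC b hB.head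
    have f := f0_append hC hpC B hB.tail
    rw [tt_cons, qq_cons, List.cons_append]
    have e : race C (b :: (B ++ C)) = race C (B ++ C) - dd C (B ++ C) b / b := by
      rw [dd]; field_simp; ring
    have h1 : |dd C (B ++ C) b - f0 C C| ≤ 1 / b + tt B := by
      rw [abs_le] at d f ⊢
      constructor <;> linarith [d.1, d.2, f.1, f.2]
    have h2 : race C (b :: (B ++ C)) - 1 / 2 + f0 C C * (1 / b + tt B)
        = (race C (B ++ C) - 1 / 2 + f0 C C * tt B) - (dd C (B ++ C) b - f0 C C) / b := by
      rw [e]; ring
    rw [h2]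
    have h3 : |(dd C (B ++ C) b - f0 C C) / b| ≤ (1 / b + tt B) / b := by
      rw [abs_div, abs_of_pos hb]
      gcongr
    have h4 : ((1 / (b : ℝ) + tt B) ^ 2 + (1 / (b : ℝ) ^ 2 + qq B)) / 2
        = (tt B ^ 2 + qq B) / 2 + (1 / b + tt B) / b := by
      field_simp; ring
    rw [h4]
    rw [abs_le] at ih h3 ⊢
    constructor <;> linarith [ih.1, ih.2, h3.1, h3.2]

/-- the second order expansion of the race. -/
theorem race_expand {C : List ℕ} (hC : EndOne C) (hpC : Pos C) : ∀ A B : List ℕ, Pos A → Pos B →
    |race (A ++ C) (B ++ C) - 1 / 2 - f0 C C * (tt A - tt B)|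
      ≤ ((tt A - tt B) ^ 2 + qq A + qq B) / 2
  | [], B, _, hB => by
    have h := race_append_expand hC hpC B hB
    rw [List.nil_append, tt_nil, qq_nil]
    have e1 : race C (B ++ C) - 1 / 2 - f0 C C * (0 - tt B)
        = race C (B ++ C) - 1 / 2 + f0 C C * tt B := by ring
    have e2 : ((0 - tt B) ^ 2 + 0 + qq B) / 2 = (tt B ^ 2 + qq B) / 2 := by ring
    rw [e1, e2]
    exact h
  | a :: A, [], hA, _ => by
    have h := race_append_expand hC hpC (a :: A) hA
    rw [List.nil_append, tt_nil, qq_nil]
    have h3 := race_add_race (a :: A ++ C) C (hA.append hpC) hpC (Or.inr hC.ne_nil)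
    have e1 : race (a :: A ++ C) C - 1 / 2 - f0 C C * (tt (a :: A) - 0)
        = -(race C (a :: A ++ C) - 1 / 2 + f0 C C * tt (a :: A)) := by linarith
    have e2 : ((tt (a :: A) - 0) ^ 2 + qq (a :: A) + 0) / 2
        = (tt (a :: A) ^ 2 + qq (a :: A)) / 2 := by ring
    rw [e1, e2, abs_neg]
    exact h
  | a :: A, b :: B, hA, hB => by
    have ih1 := race_expand hC hpC A (b :: B) hA.tail hB
    have ih2 := race_expand hC hpC (a :: A) B hA hB.tail
    have ha : (0 : ℝ) < a := by exact_mod_cast hA.head
    have hb : (0 : ℝ) < b := by exact_mod_cast hB.head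
    rw [List.cons_append] at ih1 ih2
    rw [List.cons_append, List.cons_append, race_cons]
    simp only [tt_cons, qq_cons] at ih1 ih2 ⊢
    set x := race (A ++ C) (b :: (B ++ C))
    set y := race (a :: (A ++ C)) (B ++ C)
    set c := f0 C C
    have hQ : ((1 / (a : ℝ) + tt A - (1 / b + tt B)) ^ 2 + (1 / (a : ℝ) ^ 2 + qq A)
          + (1 / (b : ℝ) ^ 2 + qq B)) / 2
        = (a * (((tt A - (1 / b + tt B)) ^ 2 + qq A + (1 / (b : ℝ) ^ 2 + qq B)) / 2)
          + b * (((1 / (a : ℝ) + tt A - tt B) ^ 2 + (1 / (a : ℝ) ^ 2 + qq A) + qq B) / 2))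
            / (a + b) := by
      field_simp
      ring
    have hL : (a * x + b * y) / (a + b) - 1 / 2 - c * (1 / (a : ℝ) + tt A - (1 / b + tt B))
        = (a * (x - 1 / 2 - c * (tt A - (1 / b + tt B)))
          + b * (y - 1 / 2 - c * (1 / (a : ℝ) + tt A - tt B))) / (a + b) := by
      field_simp
      ring
    rw [hQ, hL, abs_div, abs_of_pos (by positivity : (0 : ℝ) < (a : ℝ) + b)]
    refine div_le_div_of_nonneg_right ?_ (by positivity)
    refine (abs_add_le _ _).trans ?_
    rw [abs_mul, abs_mul, abs_of_pos ha, abs_of_pos hb]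
    exact add_le_add (mul_le_mul_of_nonneg_left ih1 ha.le) (mul_le_mul_of_nonneg_left ih2 hb.le)
termination_by A B => A.length + B.length

/-- the race is close to `1 / 2` when the tails are small and have close sums. -/
theorem race_close {C : List ℕ} (hC : EndOne C) (hpC : Pos C) {A B : List ℕ} (hA : Pos A)
    (hB : Pos B) : |race (A ++ C) (B ++ C) - 1 / 2|
      ≤ |tt A - tt B| + ((tt A - tt B) ^ 2 + qq A + qq B) / 2 := by
  have h1 := race_expand hC hpC A B hA hB
  have h2 := f0_bound hC hC hpC hpC
  have h3 : |f0 C C * (tt A - tt B)| ≤ |tt A - tt B| := by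
    rw [abs_mul]
    have := abs_nonneg (tt A - tt B)
    nlinarith
  have h4 : race (A ++ C) (B ++ C) - 1 / 2 = (race (A ++ C) (B ++ C) - 1 / 2
    - f0 C C * (tt A - tt B)) + f0 C C * (tt A - tt B) := by ring
  rw [h4]
  refine (abs_add_le _ _).trans ?_
  linarith

end Pool.Agent.Helper19.Forest
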