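import Mathlib
import Pool.Agent.Helper19.Forest.Race
import Pool.Agent.Helper19.Forest.Count

/-!
Hook formula and race formula for rooted forests (problem MP_c890a7_co).
-/

namespace Pool.Agent.Helper19.Forest

open Finset

variable {n : ℕ}

/-- `r` is a (reflexive) partial order -/
structure Po (r : Fin n → Fin n → Prop) : Prop where
  refl : ∀ a, r a a
  trans : ∀ a b c, r a b → r b c → r a c
  anti : ∀ a b, r a b → r b a → a = b
  /-- the elements above a given element are pairwise comparable -/
  forest : ∀ a b c, r a b → r a c → r b c ∨ r c b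

open Classical in
/-- the hook length: the number of elements `≤ u` -/
noncomputable def hook (r : Fin n → Fin n → Prop) (u : Fin n) : ℕ :=
  (univ.filter (fun v => r v u)).card

/-- down-closed sets -/
def Down (r : Fin n → Fin n → Prop) (D : Finset (Fin n)) : Prop := ∀ a ∈ D, ∀ b, r b a → b ∈ D

variable {r : Fin n → Fin n → Prop}

theorem hook_pos (h : Po r) (u : Fin n) : 0 < hook r u := by
  classical
  unfold hook
  rw [Finset.card_pos]
  exact ⟨u, by simp [h.refl]⟩

theorem hook_lt (h : Po r) {a b : Fin n} (hab : r a b) (hne : a ≠ b) : hook r a < hook r b := by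
  classical
  unfold hook
  apply Finset.card_lt_card
  rw [Finset.ssubset_iff_of_subset]
  · refine ⟨b, by simp [h.refl], ?_⟩
    rw [Finset.mem_filter]
    rintro ⟨_, hba⟩
    exact hne (h.anti _ _ hab hba)
  · intro v hv
    rw [Finset.mem_filter] at hv ⊢
    exact ⟨hv.1, h.trans _ _ _ hv.2 hab⟩

theorem Down.erase (h : Po r) {D : Finset (Fin n)} (hD : Down r D) {m : Fin n}
    (hm : m ∈ mx r D) : Down r (D.erase m) := by
  intro a ha b hba
  rw [Finset.mem_erase] at ha ⊢
  refine ⟨?_, hD a ha.2 b hba⟩
  rintro rfl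
  exact (mem_mx.1 hm).2 a ha.2 ha.1 hba

/-- there is a maximal element above each element of `D` -/
theorem exists_mx (h : Po r) {D : Finset (Fin n)} {v : Fin n} (hv : v ∈ D) :
    ∃ m ∈ mx r D, r v m := by
  classical
  obtain ⟨m, hm, hmax⟩ := Finset.exists_max_image (D.filter (fun u => r v u)) (hook r)
    ⟨v, by simp [hv, h.refl]⟩
  rw [Finset.mem_filter] at hm
  refine ⟨m, mem_mx.2 ⟨hm.1, ?_⟩, hm.2⟩
  intro b hb hne hmb
  have h1 := hmax b (by rw [Finset.mem_filter]; exact ⟨hb, h.trans _ _ _ hm.2 hmb⟩)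
  have h2 := hook_lt h hmb (Ne.symm hne)
  omega

theorem unique_mx (h : Po r) {D : Finset (Fin n)} {v m m' : Fin n} (hm : m ∈ mx r D)
    (hm' : m' ∈ mx r D) (hv : r v m) (hv' : r v m') : m = m' := by
  rw [mem_mx] at hm hm'
  by_contra hne
  rcases h.forest v m m' hv hv' with h1 | h1
  · exact hm.2 m' hm'.1 (Ne.symm hne) h1
  · exact hm'.2 m hm.1 hne h1

theorem sum_hook (h : Po r) {D : Finset (Fin n)} (hD : Down r D) :
    ∑ m ∈ mx r D, hook r m = D.card := by
  classical
  have e : D = (mx r D).biUnion (fun m => univ.filter (fun v => r v m)) := by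
    ext v
    rw [Finset.mem_biUnion]
    constructor
    · intro hv
      obtain ⟨m, hm, hvm⟩ := exists_mx h hv
      exact ⟨m, hm, by simp [hvm]⟩
    · rintro ⟨m, hm, hv⟩
      rw [Finset.mem_filter] at hv
      exact hD m (mem_mx.1 hm).1 v hv.2
  conv_rhs => rw [e]
  rw [Finset.card_biUnion]
  · rfl
  · intro a ha b hb hab
    rw [Function.onFun, Finset.disjoint_left]
    intro v hv hv'
    rw [Finset.mem_filter] at hv hv'
    exact hab (unique_mx h ha hb hv.2 hv'.2)

/-- the hook formula -/
theorem cnt_hook (h : Po r) : ∀ (k : ℕ) (D : Finset (Fin n)), D.card = k → Down r D →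
    cnt r D * ∏ v ∈ D, hook r v = k.factorial
  | 0, D, hk, _ => by
    rw [Finset.card_eq_zero] at hk
    subst hk
    simp [cnt_empty]
  | k + 1, D, hk, hD => by
    have hne : D.Nonempty := Finset.card_pos.1 (by omega)
    rw [cnt_rec r hne, Finset.sum_mul]
    have : ∀ m ∈ mx r D, cnt r (D.erase m) * ∏ v ∈ D, hook r v = hook r m * k.factorial := by
      intro m hm
      have hmD := (mem_mx.1 hm).1
      rw [← Finset.mul_prod_erase D _ hmD, mul_left_comm,
        cnt_hook h k (D.erase m) (by rw [Finset.card_erase_of_mem hmD, hk]; rfl)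
          (hD.erase h hm)]
    rw [Finset.sum_congr rfl this, ← Finset.sum_mul, sum_hook h hD, hk, Nat.factorial_succ]

theorem cnt_pos (h : Po r) {D : Finset (Fin n)} (hD : Down r D) : 0 < cnt r D := by
  have := cnt_hook h D.card D rfl hD
  have h2 := Nat.factorial_pos D.card
  rw [← this] at h2
  exact Nat.pos_of_mul_pos_right h2

theorem cnt_erase (h : Po r) {D : Finset (Fin n)} (hD : Down r D) {m : Fin n}
    (hm : m ∈ mx r D) : D.card * cnt r (D.erase m) = cnt r D * hook r m := by
  have hmD := (mem_mx.1 hm).1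
  have hc : D.card = (D.erase m).card + 1 := by
    rw [Finset.card_erase_of_mem hmD]
    have : 0 < D.card := Finset.card_pos.2 ⟨m, hmD⟩
    omega
  have h1 := cnt_hook h _ D rfl hD
  have h2 := cnt_hook h _ (D.erase m) rfl (hD.erase h hm)
  rw [← Finset.mul_prod_erase D _ hmD, hc, Nat.factorial_succ, ← h2, ← hc] at h1
  have hp : 0 < ∏ v ∈ D.erase m, hook r v := Finset.prod_pos (fun v _ => hook_pos h v)
  have h3 : (∏ v ∈ D.erase m, hook r v) * (D.card * cnt r (D.erase m))
      = (∏ v ∈ D.erase m, hook r v) * (cnt r D * hook r m) := by linarith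
  exact Nat.eq_of_mul_eq_mul_left hp h3

/-- the descending list of the elements of a finite set of numbers -/
def desc (S : Finset ℕ) : List ℕ := S.sort (fun a b => b ≤ a)

theorem mem_desc {S : Finset ℕ} {a : ℕ} : a ∈ desc S ↔ a ∈ S := Finset.mem_sort _

theorem desc_empty : desc ∅ = [] := by simp [desc]

theorem desc_insert {S : Finset ℕ} {a : ℕ} (h : ∀ b ∈ S, b < a) :
    desc (insert a S) = a :: desc S := by
  unfold desc
  apply Finset.sort_insert
  · intro b hb
    exact (h b hb).le
  · intro ha
    exact lt_irrefl _ (h a ha)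

open Classical in
/-- the exclusive ancestors of `x` (elements of `D` above `x` but not above `y`) -/
noncomputable def ex (r : Fin n → Fin n → Prop) (x y : Fin n) (D : Finset (Fin n)) :
    Finset (Fin n) := D.filter (fun u => r x u ∧ ¬ r y u)

/-- the descending list of the hooks of the exclusive ancestors -/
noncomputable def XX (r : Fin n → Fin n → Prop) (x y : Fin n) (D : Finset (Fin n)) : List ℕ :=
  desc ((ex r x y D).image (hook r))

theorem mem_ex {x y u : Fin n} {D : Finset (Fin n)} :
    u ∈ ex r x y D ↔ u ∈ D ∧ r x u ∧ ¬ r y u := by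
  classical
  unfold ex
  rw [Finset.mem_filter]

theorem XX_nil {x y : Fin n} {D : Finset (Fin n)} (hD : Down r D) (hx : x ∉ D) :
    XX r x y D = [] := by
  have : ex r x y D = ∅ := by
    rw [Finset.eq_empty_iff_forall_notMem]
    intro u hu
    rw [mem_ex] at hu
    exact hx (hD u hu.1 x hu.2.1)
  unfold XX
  rw [this, Finset.image_empty, desc_empty]

theorem XX_ne_nil (h : Po r) {x y : Fin n} {D : Finset (Fin n)} (hx : x ∈ D) (hyx : ¬ r y x) :
    XX r x y D ≠ [] := by
  intro he
  have : hook r x ∈ XX r x y D := by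
    unfold XX
    rw [mem_desc, Finset.mem_image]
    exact ⟨x, mem_ex.2 ⟨hx, h.refl x, hyx⟩, rfl⟩
  rw [he] at this
  simp at this

theorem XX_pos (h : Po r) (x y : Fin n) (D : Finset (Fin n)) : Pos (XX r x y D) := by
  intro a ha
  unfold XX at ha
  rw [mem_desc, Finset.mem_image] at ha
  obtain ⟨u, _, rfl⟩ := ha
  exact hook_pos h u

/-- erasing an element which is not an exclusive ancestor -/
theorem XX_erase_of_not {x y m : Fin n} {D : Finset (Fin n)} (hm : ¬ (r x m ∧ ¬ r y m)) :
    XX r x y (D.erase m) = XX r x y D := by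
  have : ex r x y (D.erase m) = ex r x y D := by
    ext u
    rw [mem_ex, mem_ex, Finset.mem_erase]
    constructor
    · rintro ⟨⟨_, h1⟩, h2⟩
      exact ⟨h1, h2⟩
    · rintro ⟨h1, h2⟩
      refine ⟨⟨?_, h1⟩, h2⟩
      rintro rfl
      exact hm h2
  unfold XX
  rw [this]

/-- erasing the top exclusive ancestor -/
theorem XX_erase_of (h : Po r) {x y m : Fin n} {D : Finset (Fin n)} (hmD : m ∈ mx r D)
    (hm : r x m ∧ ¬ r y m) : XX r x y D = hook r m :: XX r x y (D.erase m) := by
  classical
  have h1 : ex r x y D = insert m (ex r x y (D.erase m)) := by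
    ext u
    rw [Finset.mem_insert, mem_ex, mem_ex, Finset.mem_erase]
    constructor
    · rintro ⟨h1, h2⟩
      by_cases hu : u = m
      · exact Or.inl hu
      · exact Or.inr ⟨⟨hu, h1⟩, h2⟩
    · rintro (rfl | ⟨⟨_, h1⟩, h2⟩)
      · exact ⟨(mem_mx.1 hmD).1, hm⟩
      · exact ⟨h1, h2⟩
  unfold XX
  rw [h1, Finset.image_insert, desc_insert]
  intro b hb
  rw [Finset.mem_image] at hb
  obtain ⟨u, hu, rfl⟩ := hb
  rw [mem_ex, Finset.mem_erase] at hu
  obtain ⟨⟨hne, huD⟩, hxu, _⟩ := hu
  have hmm := mem_mx.1 hmD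
  rcases h.forest x u m hxu hm.1 with h2 | h2
  · exact hook_lt h h2 hne
  · exact absurd h2 (hmm.2 u huD hne)

/-- constraint relations which agree on `D` -/
theorem cnt_congr {s s' : Fin n → Fin n → Prop} {D : Finset (Fin n)}
    (hss : ∀ a ∈ D, ∀ b ∈ D, s a b ↔ s' a b) : cnt s D = cnt s' D := by
  unfold cnt
  congr 1
  ext l
  rw [mem_LL s _ _ rfl, mem_LL s' _ _ rfl]
  have : ∀ (_ : ∀ a, a ∈ l ↔ a ∈ D), (l.Pairwise (fun a b => ¬ s a b) ↔
      l.Pairwise (fun a b => ¬ s' a b)) := by
    intro hl
    apply List.Pairwise.iff_of_mem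
    intro a b ha hb
    rw [hss a ((hl a).1 ha) b ((hl b).1 hb)]
  constructor
  · rintro ⟨h1, h2, h3⟩
    exact ⟨h1, h2, (this h2).1 h3⟩
  · rintro ⟨h1, h2, h3⟩
    exact ⟨h1, h2, (this h2).2 h3⟩

/-- the relation `r` with the extra constraint `x ≤ y` -/
def addR (r : Fin n → Fin n → Prop) (x y : Fin n) : Fin n → Fin n → Prop :=
  fun a b => r a b ∨ (a = x ∧ b = y)

/-- the harmonic identity for the race -/
theorem sum_race (h : Po r) {x y : Fin n} {D : Finset (Fin n)} (hD : Down r D) (hx : x ∈ D)
    (hy : y ∈ D) :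
    ∑ m ∈ mx r D, (hook r m : ℝ) * race (XX r x y (D.erase m)) (XX r y x (D.erase m))
      = D.card * race (XX r x y D) (XX r y x D) := by
  classical
  set R := race (XX r x y D) (XX r y x D) with hR
  obtain ⟨a, ha, hxa⟩ := exists_mx h hx
  obtain ⟨b, hb, hyb⟩ := exists_mx h hy
  have hsum : (D.card : ℝ) * R = ∑ m ∈ mx r D, (hook r m : ℝ) * R := by
    rw [← Finset.sum_mul, ← sum_hook h hD]
    push_cast
    rfl
  rw [hsum, ← sub_eq_zero, ← Finset.sum_sub_distrib]
  by_cases hab : a = b
  · subst hab
    apply Finset.sum_eq_zero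
    intro m hm
    have h1 : ¬ (r x m ∧ ¬ r y m) := by
      rintro ⟨h2, h3⟩
      have := unique_mx h hm ha h2 hxa
      subst this
      exact h3 hyb
    have h2 : ¬ (r y m ∧ ¬ r x m) := by
      rintro ⟨h2, h3⟩
      have := unique_mx h hm ha h2 hyb
      subst this
      exact h3 hxa
    rw [XX_erase_of_not h1, XX_erase_of_not h2, sub_self]
  · have hya : ¬ r y a := fun h1 => hab (unique_mx h ha hb h1 hyb)
    have hxb : ¬ r x b := fun h1 => hab (unique_mx h ha hb hxa h1)
    rw [Finset.sum_eq_add_of_mem a b ha hb hab]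
    · have e1 : XX r y x (D.erase a) = XX r y x D := XX_erase_of_not (fun h1 => hya h1.1)
      have e2 : XX r x y (D.erase b) = XX r x y D := XX_erase_of_not (fun h1 => hxb h1.1)
      have e3 := XX_erase_of h ha ⟨hxa, hya⟩
      have e4 := XX_erase_of h hb ⟨hyb, hxb⟩
      have hpa : (0 : ℝ) < hook r a := by exact_mod_cast hook_pos h a
      have hpb : (0 : ℝ) < hook r b := by exact_mod_cast hook_pos h b
      have hRR : R = ((hook r a : ℝ) * race (XX r x y (D.erase a)) (XX r y x D)
          + hook r b * race (XX r x y D) (XX r y x (D.erase b))) / (hook r a + hook r b) := by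
        rw [hR]
        conv_lhs => rw [e3, e4, race_cons]
        rw [← e3, ← e4]
      rw [e1, e2]
      have h5 : (hook r a : ℝ) * race (XX r x y (D.erase a)) (XX r y x D)
          + hook r b * race (XX r x y D) (XX r y x (D.erase b)) = R * (hook r a + hook r b) := by
        rw [hRR]; field_simp
      linarith
    · intro m hm hne
      have h1 : ¬ (r x m ∧ ¬ r y m) := fun h2 => hne.1 (unique_mx h hm ha h2.1 hxa)
      have h2 : ¬ (r y m ∧ ¬ r x m) := fun h2 => hne.2 (unique_mx h hm hb h2.1 hyb)
      rw [XX_erase_of_not h1, XX_erase_of_not h2, sub_self]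

/-- the race formula -/
theorem cnt_addR (h : Po r) {x y : Fin n} (hyx : ¬ r y x) (hxy : ¬ r x y) :
    ∀ (k : ℕ) (D : Finset (Fin n)), D.card = k → Down r D → x ∈ D →
    (cnt (addR r x y) D : ℝ) = cnt r D * race (XX r x y D) (XX r y x D)
  | 0, D, hk, _, hx => by
    rw [Finset.card_eq_zero] at hk
    subst hk
    simp at hx
  | k + 1, D, hk, hD, hx => by
    classical
    have hne : D.Nonempty := ⟨x, hx⟩
    have hxne : x ≠ y := by
      rintro rfl
      exact hxy (h.refl _)
    by_cases hy : y ∈ D
    · have hmx : mx (addR r x y) D = (mx r D).erase x := by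
        ext m
        rw [Finset.mem_erase, mem_mx, mem_mx]
        constructor
        · rintro ⟨h1, h2⟩
          refine ⟨?_, h1, ?_⟩
          · rintro rfl
            exact h2 y hy (Ne.symm hxne) (Or.inr ⟨rfl, rfl⟩)
          · intro b hb hbm hmb
            exact h2 b hb hbm (Or.inl hmb)
        · rintro ⟨h0, h1, h2⟩
          refine ⟨h1, ?_⟩
          intro b hb hbm hmb
          rcases hmb with hmb | hmb
          · exact h2 b hb hbm hmb
          · exact h0 hmb.1
      rw [cnt_rec _ hne, hmx]
      push_cast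
      have hstep : ∀ m ∈ (mx r D).erase x, (cnt (addR r x y) (D.erase m) : ℝ)
          = (cnt r D / D.card) * (hook r m *
            race (XX r x y (D.erase m)) (XX r y x (D.erase m))) := by
        intro m hm
        rw [Finset.mem_erase] at hm
        have hmD := (mem_mx.1 hm.2).1
        rw [cnt_addR h hyx hxy k (D.erase m) (by rw [Finset.card_erase_of_mem hmD, hk]; rfl)
          (hD.erase h hm.2) (Finset.mem_erase.2 ⟨Ne.symm hm.1, hx⟩)]
        have h1 : (D.card : ℝ) * cnt r (D.erase m) = cnt r D * hook r m := by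
          exact_mod_cast cnt_erase h hD hm.2
        have hDp : (0 : ℝ) < D.card := by exact_mod_cast hne.card_pos
        have h2 : (cnt r (D.erase m) : ℝ) = cnt r D / D.card * hook r m := by
          field_simp
          linarith
        rw [h2]; ring
      rw [Finset.sum_congr rfl hstep, ← Finset.mul_sum]
      have hfull : ∑ m ∈ (mx r D).erase x, (hook r m : ℝ) *
            race (XX r x y (D.erase m)) (XX r y x (D.erase m))
          = ∑ m ∈ mx r D, (hook r m : ℝ) *
            race (XX r x y (D.erase m)) (XX r y x (D.erase m)) := by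
        apply Finset.sum_subset (Finset.erase_subset _ _)
        intro m hm hm'
        have hmx' : m = x := by
          by_contra hne'
          exact hm' (Finset.mem_erase.2 ⟨hne', hm⟩)
        subst hmx'
        rw [XX_nil (hD.erase h hm) (Finset.notMem_erase _ _), race_nil_left, mul_zero]
      rw [hfull, sum_race h hD hx hy]
      have hDp : (0 : ℝ) < D.card := by exact_mod_cast hne.card_pos
      field_simp
    · rw [XX_nil hD hy]
      obtain ⟨a, A, hA⟩ := List.exists_cons_of_ne_nil (XX_ne_nil h hx hyx)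
      rw [hA, race_nil_right, mul_one]
      congr 1
      apply cnt_congr
      intro a _ b hb
      constructor
      · rintro (h1 | h1)
        · exact h1
        · exact absurd (h1.2 ▸ hb) hy
      · exact Or.inl

end Pool.Agent.Helper19.Forest
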