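import Mathlib
import Pool.Agent.Helper19.Forest.Hook

/-!
Estimates for the race of two hook lists (problem MP_c890a7_co).
-/

namespace Pool.Agent.Helper19.Forest

open Finset

theorem sum_desc (f : ℕ → ℝ) (S : Finset ℕ) : ((desc S).map f).sum = ∑ s ∈ S, f s := by
  unfold desc
  rw [Finset.sum_eq_multiset_sum, ← Finset.sort_eq S (fun a b => b ≤ a), Multiset.map_coe,
    Multiset.sum_coe]

theorem prod_desc (f : ℕ → ℝ) (S : Finset ℕ) : ((desc S).map f).prod = ∏ s ∈ S, f s := by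
  unfold desc
  rw [Finset.prod_eq_multiset_prod, ← Finset.sort_eq S (fun a b => b ≤ a), Multiset.map_coe,
    Multiset.prod_coe]

theorem desc_eq {S : Finset ℕ} {l : List ℕ} (h1 : ∀ a, a ∈ l ↔ a ∈ S)
    (h2 : l.Pairwise (fun a b => b < a)) : desc S = l := by
  have hnd : l.Nodup := h2.imp (fun h => (ne_of_lt h).symm)
  have hS : l.toFinset = S := by
    ext a
    rw [List.mem_toFinset, h1]
  unfold desc
  rw [← hS, List.toFinset_sort _ hnd]
  exact h2.imp (fun h => h.le)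

theorem desc_pairwise (S : Finset ℕ) : (desc S).Pairwise (fun a b => b < a) := by
  have h1 : (desc S).Pairwise (fun a b => b ≤ a) := Finset.pairwise_sort _ _
  have h2 : (desc S).Nodup := Finset.sort_nodup _ _
  rw [List.Nodup] at h2
  exact (h1.and h2).imp (fun h => lt_of_le_of_ne h.1 (Ne.symm h.2))

theorem desc_append {S T : Finset ℕ} (h : ∀ a ∈ S, ∀ b ∈ T, b < a) :
    desc (S ∪ T) = desc S ++ desc T := by
  apply desc_eq
  · intro a
    rw [List.mem_append, mem_desc, mem_desc, Finset.mem_union]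
  · rw [List.pairwise_append]
    refine ⟨desc_pairwise S, desc_pairwise T, ?_⟩
    intro a ha b hb
    exact h a (mem_desc.1 ha) b (mem_desc.1 hb)

theorem desc_singleton (a : ℕ) : desc {a} = [a] := by
  simp [desc]

theorem desc_split (m : ℕ) (S : Finset ℕ) :
    desc S = desc (S.filter (fun s => m < s)) ++ desc (S.filter (fun s => s ≤ m)) := by
  rw [← desc_append]
  · congr 1
    ext a
    rw [Finset.mem_union, Finset.mem_filter, Finset.mem_filter]
    constructor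
    · intro h
      rcases lt_or_ge m a with h1 | h1
      · exact Or.inl ⟨h, h1⟩
      · exact Or.inr ⟨h, h1⟩
    · rintro (h | h)
      · exact h.1
      · exact h.1
  · intro a ha b hb
    rw [Finset.mem_filter] at ha hb
    omega

theorem endOne_desc {S : Finset ℕ} (h1 : 1 ∈ S) (h0 : 0 ∉ S) : EndOne (desc S) := by
  refine ⟨desc (S.erase 1), ?_⟩
  rw [← desc_singleton, ← desc_append]
  · congr 1
    ext a
    rw [Finset.mem_union, Finset.mem_erase, Finset.mem_singleton]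
    constructor
    · intro h
      by_cases ha : a = 1
      · exact Or.inr ha
      · exact Or.inl ⟨ha, h⟩
    · rintro (h | rfl)
      · exact h.2
      · exact h1
  · intro a ha b hb
    rw [Finset.mem_singleton] at hb
    subst hb
    rw [Finset.mem_erase] at ha
    have : a ≠ 0 := by
      rintro rfl
      exact h0 ha.2
    omega

theorem pos_desc {S : Finset ℕ} (h0 : 0 ∉ S) : Pos (desc S) := by
  intro a ha
  rw [mem_desc] at ha
  rcases Nat.eq_zero_or_pos a with rfl | h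
  · exact absurd ha h0
  · exact h

/-- tail of the series `∑ 1 / s ^ 2` -/
theorem sum_sq_le {m : ℕ} (hm : 1 ≤ m) {S : Finset ℕ} (hS : ∀ s ∈ S, m < s) :
    ∑ s ∈ S, 1 / (s : ℝ) ^ 2 ≤ 1 / (m : ℝ) := by
  obtain ⟨N, hN⟩ : ∃ N, ∀ s ∈ S, s ≤ N := ⟨S.sup id, fun s hs => Finset.le_sup (f := id) hs⟩
  have hsub : S ⊆ Finset.Ioc m (max m N) := by
    intro s hs
    rw [Finset.mem_Ioc]
    exact ⟨hS s hs, le_max_of_le_right (hN s hs)⟩
  have h1 : ∑ s ∈ S, 1 / (s : ℝ) ^ 2 ≤ ∑ s ∈ Finset.Ioc m (max m N), ((s : ℝ) ^ 2)⁻¹ := by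
    simp only [one_div]
    apply Finset.sum_le_sum_of_subset_of_nonneg hsub
    intro i _ _
    positivity
  have h2 := sum_Ioc_inv_sq_le_sub (α := ℝ) (k := m) (n := max m N) (by omega) (le_max_left _ _)
  have h3 : (0 : ℝ) ≤ ((max m N : ℕ) : ℝ)⁻¹ := by positivity
  rw [one_div]
  linarith

theorem qq_desc_le {m : ℕ} (hm : 1 ≤ m) {S : Finset ℕ} (hS : ∀ s ∈ S, m < s) :
    qq (desc S) ≤ 1 / m := by
  unfold qq
  rw [sum_desc]
  exact sum_sq_le hm hS

/-- a Wallis type bound -/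
theorem wallis : ∀ m : ℕ, 1 ≤ m →
    (∏ b ∈ Finset.Icc 1 m, ((b : ℝ) / (b - 1 / 2))) ≤ 2 * √m := by
  intro m hm
  induction m, hm using Nat.le_induction with
  | base => norm_num
  | succ m hm ih =>
    rw [Finset.prod_Icc_succ_top (by omega)]
    push_cast
    have hm' : (1 : ℝ) ≤ m := by exact_mod_cast hm
    have h1 : (0 : ℝ) < (m : ℝ) + 1 - 1 / 2 := by linarith
    have h2 : (∏ b ∈ Finset.Icc 1 m, ((b : ℝ) / (b - 1 / 2))) * (((m : ℝ) + 1) / (m + 1 - 1 / 2))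
        ≤ (2 * √m) * (((m : ℝ) + 1) / (m + 1 - 1 / 2)) :=
      mul_le_mul_of_nonneg_right ih (by positivity)
    refine h2.trans ?_
    rw [mul_assoc]
    refine mul_le_mul_of_nonneg_left ?_ (by norm_num)
    apply Real.le_sqrt_of_sq_le
    rw [mul_pow, Real.sq_sqrt (by positivity), div_pow, ← mul_div_assoc, div_le_iff₀ (by positivity)]
    nlinarith

theorem one_le_prod {S : Finset ℕ} {f : ℕ → ℝ} (h : ∀ s ∈ S, 1 ≤ f s) : 1 ≤ ∏ s ∈ S, f s := by
  induction S using Finset.induction_on with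
  | empty => simp
  | insert a S ha ih =>
    rw [Finset.prod_insert ha]
    have h1 := h a (Finset.mem_insert_self _ _)
    have h2 := ih (fun s hs => h s (Finset.mem_insert_of_mem hs))
    nlinarith

theorem prod_low {m : ℕ} (hm : 1 ≤ m) {F : Finset ℕ} (h0 : 0 ∉ F) :
    ∏ b ∈ F.filter (fun s => s ≤ m), ((b : ℝ) / (b - 1 / 2)) ≤ 2 * √m := by
  refine le_trans ?_ (wallis m hm)
  have hsub : F.filter (fun s => s ≤ m) ⊆ Finset.Icc 1 m := by
    intro s hs
    rw [Finset.mem_filter] at hs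
    rw [Finset.mem_Icc]
    refine ⟨?_, hs.2⟩
    rcases Nat.eq_zero_or_pos s with rfl | h
    · exact absurd hs.1 h0
    · exact h
  rw [← Finset.prod_sdiff hsub]
  have hge : ∀ s ∈ Finset.Icc 1 m, (1 : ℝ) ≤ (s : ℝ) / (s - 1 / 2) := by
    intro s hs
    rw [Finset.mem_Icc] at hs
    have : (1 : ℝ) ≤ s := by exact_mod_cast hs.1
    rw [le_div_iff₀ (by linarith)]
    linarith
  have h1 : 1 ≤ ∏ b ∈ Finset.Icc 1 m \ F.filter (fun s => s ≤ m), ((b : ℝ) / (b - 1 / 2)) :=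
    one_le_prod (fun s hs => hge s (Finset.mem_sdiff.1 hs).1)
  have h2 : 1 ≤ ∏ b ∈ F.filter (fun s => s ≤ m), ((b : ℝ) / (b - 1 / 2)) :=
    one_le_prod (fun s hs => hge s (hsub hs))
  nlinarith

theorem fac1 {b : ℕ} (hb : 1 ≤ b) :
    (b : ℝ) / (b - 1 / 2) ≤ Real.exp (1 / 2 * (1 / (b : ℝ)) + 1 / 2 * (1 / (b : ℝ) ^ 2)) := by
  have hb' : (1 : ℝ) ≤ b := by exact_mod_cast hb
  have h1 : (b : ℝ) / (b - 1 / 2) ≤ 1 / 2 * (1 / (b : ℝ)) + 1 / 2 * (1 / (b : ℝ) ^ 2) + 1 := by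
    rw [div_le_iff₀ (by linarith)]
    have : (1 / 2 * (1 / (b : ℝ)) + 1 / 2 * (1 / (b : ℝ) ^ 2) + 1) * (b - 1 / 2)
        = b + 1 / (4 * (b : ℝ)) - 1 / (4 * (b : ℝ) ^ 2) := by
      field_simp
      ring
    rw [this]
    have h2 : 1 / (4 * (b : ℝ) ^ 2) ≤ 1 / (4 * (b : ℝ)) := by
      apply one_div_le_one_div_of_le (by positivity)
      nlinarith
    linarith
  exact h1.trans (Real.add_one_le_exp _)

theorem fac2 {b : ℕ} (hb : 1 ≤ b) :
    (b : ℝ) / (b + 1 / 2) ≤ Real.exp (-(1 / 2 * (1 / (b : ℝ))) + 1 / 2 * (1 / (b : ℝ) ^ 2)) := by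
  have hb' : (1 : ℝ) ≤ b := by exact_mod_cast hb
  have h1 : (b : ℝ) / (b + 1 / 2) ≤ -(1 / 2 * (1 / (b : ℝ))) + 1 / 2 * (1 / (b : ℝ) ^ 2) + 1 := by
    rw [div_le_iff₀ (by linarith)]
    have : (-(1 / 2 * (1 / (b : ℝ))) + 1 / 2 * (1 / (b : ℝ) ^ 2) + 1) * (b + 1 / 2)
        = b + 1 / (4 * (b : ℝ)) + 1 / (4 * (b : ℝ) ^ 2) := by
      field_simp
      ring
    rw [this]
    have h2 : 0 ≤ 1 / (4 * (b : ℝ) ^ 2) := by positivity
    have h3 : 0 ≤ 1 / (4 * (b : ℝ)) := by positivity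
    linarith
  exact h1.trans (Real.add_one_le_exp _)

/-- the large deviation bound for the race -/
theorem race_small {m : ℕ} (hm : 1 ≤ m) {F A : Finset ℕ} (hF : 0 ∉ F) (hA : ∀ a ∈ A, m < a) :
    race (desc F) (desc A) ≤ 2 * √m * Real.exp (1 / 2 * ((∑ s ∈ F.filter (fun s => m < s),
      1 / (s : ℝ)) - ∑ s ∈ A, 1 / (s : ℝ)) + 1 / m) := by
  have hA0 : 0 ∉ A := fun h => by have := hA 0 h; omega
  refine (race_le_prod _ _ (pos_desc hF) (pos_desc hA0)).trans ?_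
  rw [prod_desc, prod_desc]
  have hsplit : ∏ b ∈ F, ((b : ℝ) / (b - 1 / 2))
      = (∏ b ∈ F.filter (fun s => s ≤ m), ((b : ℝ) / (b - 1 / 2))) *
        ∏ b ∈ F.filter (fun s => m < s), ((b : ℝ) / (b - 1 / 2)) := by
    rw [← Finset.prod_filter_mul_prod_filter_not F (fun s => s ≤ m)]
    congr 2
    ext a
    simp
  rw [hsplit]
  have h1 := prod_low hm hF
  have hpos : ∀ b ∈ F, (0 : ℝ) < (b : ℝ) / (b - 1 / 2) := by
    intro b hb
    have hb1 : 1 ≤ b := by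
      rcases Nat.eq_zero_or_pos b with rfl | h
      · exact absurd hb hF
      · exact h
    have : (1 : ℝ) ≤ b := by exact_mod_cast hb1
    apply div_pos <;> linarith
  have h2 : ∏ b ∈ F.filter (fun s => m < s), ((b : ℝ) / (b - 1 / 2))
      ≤ Real.exp (∑ b ∈ F.filter (fun s => m < s),
        (1 / 2 * (1 / (b : ℝ)) + 1 / 2 * (1 / (b : ℝ) ^ 2))) := by
    rw [Real.exp_sum]
    apply Finset.prod_le_prod
    · intro b hb
      exact (hpos b (Finset.mem_filter.1 hb).1).le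
    · intro b hb
      apply fac1
      have := (Finset.mem_filter.1 hb).2
      omega
  have h3 : ∏ b ∈ A, ((b : ℝ) / (b + 1 / 2))
      ≤ Real.exp (∑ b ∈ A, (-(1 / 2 * (1 / (b : ℝ))) + 1 / 2 * (1 / (b : ℝ) ^ 2))) := by
    rw [Real.exp_sum]
    apply Finset.prod_le_prod
    · intro b _
      positivity
    · intro b hb
      apply fac2
      have := hA b hb
      omega
  have hq1 : ∑ b ∈ F.filter (fun s => m < s), 1 / (b : ℝ) ^ 2 ≤ 1 / (m : ℝ) :=
    sum_sq_le hm (fun s hs => (Finset.mem_filter.1 hs).2)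
  have hq2 : ∑ b ∈ A, 1 / (b : ℝ) ^ 2 ≤ 1 / (m : ℝ) := sum_sq_le hm hA
  have hp2 : 0 ≤ ∏ b ∈ F.filter (fun s => m < s), ((b : ℝ) / (b - 1 / 2)) :=
    Finset.prod_nonneg (fun b hb => (hpos b (Finset.mem_filter.1 hb).1).le)
  have hp3 : 0 ≤ ∏ b ∈ A, ((b : ℝ) / (b + 1 / 2)) :=
    Finset.prod_nonneg (fun b _ => by positivity)
  calc _ ≤ (2 * √m) * Real.exp (∑ b ∈ F.filter (fun s => m < s),
        (1 / 2 * (1 / (b : ℝ)) + 1 / 2 * (1 / (b : ℝ) ^ 2))) *
        Real.exp (∑ b ∈ A, (-(1 / 2 * (1 / (b : ℝ))) + 1 / 2 * (1 / (b : ℝ) ^ 2))) := by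
        gcongr
    _ = (2 * √m) * Real.exp ((∑ b ∈ F.filter (fun s => m < s),
        (1 / 2 * (1 / (b : ℝ)) + 1 / 2 * (1 / (b : ℝ) ^ 2))) +
        (∑ b ∈ A, (-(1 / 2 * (1 / (b : ℝ))) + 1 / 2 * (1 / (b : ℝ) ^ 2)))) := by
        rw [Real.exp_add]; ring
    _ ≤ _ := by
        refine mul_le_mul_of_nonneg_left (Real.exp_le_exp.2 ?_) (by positivity)
        rw [Finset.sum_add_distrib, Finset.sum_add_distrib, ← Finset.mul_sum, ← Finset.mul_sum,
          Finset.sum_neg_distrib, ← Finset.mul_sum, ← Finset.mul_sum]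
        linarith

end Pool.Agent.Helper19.Forest
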