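import Mathlib
import Pool.Agent.Helper19.Forest.Est
import Pool.Agent.Helper1.BalanceDefs

/-!
The balance constant of rooted forests of large width is close to `1 / 2`
(problem MP_c890a7_co).
-/

set_option autoImplicit false

namespace Pool.Agent.Helper19.Forest

open Finset Pool.Agent.Helper1.Balance

variable {n : ℕ} {r : Fin n → Fin n → Prop}

/-- rooted forests: any two elements above a common element are comparable -/
def IsForest (r : Fin n → Fin n → Prop) : Prop := ∀ a b c, r a b → r a c → r b c ∨ r c b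

theorem po_of (h1 : IsPoset r) (h2 : IsForest r) : Po r := ⟨h1.1, h1.2.1, h1.2.2, h2⟩

theorem prob_eq_race (h : Po r) {x y : Fin n} (hxy : ¬ r x y) (hyx : ¬ r y x) :
    prob r x y = race (XX r x y univ) (XX r y x univ) := by
  have hxne : x ≠ y := by
    rintro rfl
    exact hxy (h.refl _)
  have hD : Down r univ := fun _ _ _ _ => Finset.mem_univ _
  have h1 := cnt_addR h hyx hxy _ univ rfl hD (Finset.mem_univ x)
  have h2 : (0 : ℝ) < cnt r univ := by exact_mod_cast cnt_pos h hD
  unfold prob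
  have e : Nat.card {σ : Equiv.Perm (Fin n) // (∀ a b, r a b → σ a ≤ σ b) ∧ σ x < σ y}
      = Nat.card {σ : Equiv.Perm (Fin n) // ∀ a b, addR r x y a b → σ a ≤ σ b} := by
    apply Nat.card_congr
    apply Equiv.subtypeEquivRight
    intro σ
    constructor
    · rintro ⟨h3, h4⟩ a b (h5 | ⟨rfl, rfl⟩)
      · exact h3 a b h5
      · exact h4.le
    · intro h3
      refine ⟨fun a b hab => h3 a b (Or.inl hab), ?_⟩
      have := h3 x y (Or.inr ⟨rfl, rfl⟩)
      exact lt_of_le_of_ne this (fun h4 => hxne (σ.injective h4))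
  rw [e, card_perm_eq_cnt, card_perm_eq_cnt, h1]
  field_simp

theorem prob_add (h : Po r) {x y : Fin n} (hxy : ¬ r x y) (hyx : ¬ r y x) :
    prob r x y + prob r y x = 1 := by
  rw [prob_eq_race h hxy hyx, prob_eq_race h hyx hxy]
  exact race_add_race _ _ (XX_pos h _ _ _) (XX_pos h _ _ _)
    (Or.inl (XX_ne_nil h (Finset.mem_univ _) hyx))

theorem prob_le_one (r : Fin n → Fin n → Prop) (x y : Fin n) : prob r x y ≤ 1 := by
  unfold prob
  apply div_le_one_of_le₀ _ (by positivity)
  have : Nat.card {σ : Equiv.Perm (Fin n) // (∀ a b, r a b → σ a ≤ σ b) ∧ σ x < σ y}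
      ≤ Nat.card {σ : Equiv.Perm (Fin n) // ∀ a b, r a b → σ a ≤ σ b} := by
    apply Nat.card_le_card_of_injective
      (fun σ : {σ : Equiv.Perm (Fin n) // (∀ a b, r a b → σ a ≤ σ b) ∧ σ x < σ y} =>
        (⟨σ.1, σ.2.1⟩ : {σ : Equiv.Perm (Fin n) // ∀ a b, r a b → σ a ≤ σ b}))
    intro σ τ hst
    apply Subtype.ext
    have h1 := Subtype.mk.inj hst
    exact h1
  exact_mod_cast this

theorem le_balance (r : Fin n → Fin n → Prop) {x y : Fin n} (hxy : ¬ r x y) (hyx : ¬ r y x) :
    min (prob r x y) (prob r y x) ≤ balance r := by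
  unfold balance
  apply le_csSup
  · refine ⟨1, ?_⟩
    rintro t ⟨a, b, _, _, rfl⟩
    exact (min_le_left _ _).trans (prob_le_one r a b)
  · exact ⟨x, y, hxy, hyx, rfl⟩

theorem balance_nonneg' (r : Fin n → Fin n → Prop) : 0 ≤ balance r := by
  unfold balance
  apply Real.sSup_nonneg
  rintro t ⟨x, y, _, _, rfl⟩
  unfold prob
  exact le_min (by positivity) (by positivity)

theorem gap (h : Po r) {ε : ℝ} (hb : balance r < 1 / 2 - ε) {x y : Fin n} (hxy : ¬ r x y)
    (hyx : ¬ r y x) : prob r x y < 1 / 2 - ε ∨ 1 / 2 + ε < prob r x y := by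
  have h1 := (le_balance r hxy hyx).trans_lt hb
  have h2 := prob_add h hxy hyx
  rcases min_lt_iff.1 h1 with h3 | h3
  · exact Or.inl h3
  · right; linarith

/-- hooks of the exclusive ancestors -/
noncomputable def EE (r : Fin n → Fin n → Prop) (x y : Fin n) : Finset ℕ :=
  (ex r x y univ).image (hook r)

theorem XX_eq (r : Fin n → Fin n → Prop) (x y : Fin n) : XX r x y univ = desc (EE r x y) := rfl

theorem zero_notMem_EE (h : Po r) (x y : Fin n) : 0 ∉ EE r x y := by
  intro h0
  unfold EE at h0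
  rw [Finset.mem_image] at h0
  obtain ⟨u, _, hu⟩ := h0
  have := hook_pos h u
  omega

theorem mem_EE {x y : Fin n} {s : ℕ} : s ∈ EE r x y ↔ ∃ u, (r x u ∧ ¬ r y u) ∧ hook r u = s := by
  unfold EE
  rw [Finset.mem_image]
  constructor
  · rintro ⟨u, hu, rfl⟩
    exact ⟨u, (mem_ex.1 hu).2, rfl⟩
  · rintro ⟨u, hu, rfl⟩
    exact ⟨u, mem_ex.2 ⟨Finset.mem_univ _, hu⟩, rfl⟩

/-- minimal elements -/
def Leaf (r : Fin n → Fin n → Prop) (x : Fin n) : Prop := ∀ u, r u x → u = x

theorem hook_leaf (h : Po r) {x : Fin n} (hx : Leaf r x) : hook r x = 1 := by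
  classical
  unfold hook
  rw [Finset.card_eq_one]
  refine ⟨x, ?_⟩
  ext u
  rw [Finset.mem_filter, Finset.mem_singleton]
  constructor
  · rintro ⟨_, hu⟩
    exact hx u hu
  · rintro rfl
    exact ⟨Finset.mem_univ _, h.refl _⟩

theorem endOne_EE (h : Po r) {x y : Fin n} (hx : Leaf r x) (hyx : ¬ r y x) :
    EndOne (desc (EE r x y)) := by
  apply endOne_desc _ (zero_notMem_EE h x y)
  rw [mem_EE]
  exact ⟨x, ⟨h.refl x, hyx⟩, hook_leaf h hx⟩

theorem hook_inj (h : Po r) {x u v : Fin n} (hu : r x u) (hv : r x v)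
    (huv : hook r u = hook r v) : u = v := by
  by_contra hne
  rcases h.forest x u v hu hv with h1 | h1
  · have := hook_lt h h1 hne
    omega
  · have := hook_lt h h1 (Ne.symm hne)
    omega

theorem hook_le_iff (h : Po r) {x u v : Fin n} (hu : r x u) (hv : r x v) :
    r u v ↔ hook r u ≤ hook r v := by
  constructor
  · intro h1
    by_cases hne : u = v
    · rw [hne]
    · exact (hook_lt h h1 hne).le
  · intro h1
    rcases h.forest x u v hu hv with h2 | h2
    · exact h2
    · by_cases hne : v = u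
      · rw [hne]
        exact h.refl _
      · have := hook_lt h h2 hne
        omega

/-- exclusive ancestors of an exclusive ancestor `z` of `x` -/
theorem EE_anc (h : Po r) {x y z : Fin n} (hxz : r x z) :
    EE r z y = (EE r x y).filter (fun s => hook r z ≤ s) := by
  ext s
  rw [Finset.mem_filter, mem_EE, mem_EE]
  constructor
  · rintro ⟨u, ⟨h1, h2⟩, rfl⟩
    have hxu := h.trans _ _ _ hxz h1
    exact ⟨⟨u, ⟨hxu, h2⟩, rfl⟩, (hook_le_iff h hxz hxu).1 h1⟩
  · rintro ⟨⟨u, ⟨h1, h2⟩, rfl⟩, h3⟩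
    exact ⟨u, ⟨(hook_le_iff h hxz h1).2 h3, h2⟩, rfl⟩

theorem EE_anc' (h : Po r) {x y z : Fin n} (hxz : r x z) (hyz : ¬ r y z) :
    EE r y z = EE r y x := by
  ext s
  rw [mem_EE, mem_EE]
  constructor
  · rintro ⟨u, ⟨h1, h2⟩, rfl⟩
    refine ⟨u, ⟨h1, ?_⟩, rfl⟩
    intro h3
    rcases h.forest x z u hxz h3 with h4 | h4
    · exact h2 h4
    · exact hyz (h.trans _ _ _ h1 h4)
  · rintro ⟨u, ⟨h1, h2⟩, rfl⟩
    exact ⟨u, ⟨h1, fun h3 => h2 (h.trans _ _ _ hxz h3)⟩, rfl⟩

open Classical in
/-- hooks of all ancestors -/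
noncomputable def SS (r : Fin n → Fin n → Prop) (x : Fin n) : Finset ℕ :=
  (univ.filter (fun u => r x u)).image (hook r)

open Classical in
/-- hooks of the common ancestors -/
noncomputable def KK (r : Fin n → Fin n → Prop) (x y : Fin n) : Finset ℕ :=
  (univ.filter (fun u => r x u ∧ r y u)).image (hook r)

theorem mem_SS {x : Fin n} {s : ℕ} : s ∈ SS r x ↔ ∃ u, r x u ∧ hook r u = s := by
  classical
  unfold SS
  rw [Finset.mem_image]
  simp

theorem mem_KK {x y : Fin n} {s : ℕ} : s ∈ KK r x y ↔ ∃ u, (r x u ∧ r y u) ∧ hook r u = s := by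
  classical
  unfold KK
  rw [Finset.mem_image]
  simp

theorem KK_comm (x y : Fin n) : KK r x y = KK r y x := by
  ext s
  rw [mem_KK, mem_KK]
  simp only [and_comm]

theorem SS_eq (x y : Fin n) : SS r x = EE r x y ∪ KK r x y := by
  ext s
  rw [Finset.mem_union, mem_SS, mem_EE, mem_KK]
  constructor
  · rintro ⟨u, h1, rfl⟩
    by_cases h2 : r y u
    · exact Or.inr ⟨u, ⟨h1, h2⟩, rfl⟩
    · exact Or.inl ⟨u, ⟨h1, h2⟩, rfl⟩
  · rintro (⟨u, h1, rfl⟩ | ⟨u, h1, rfl⟩)
    · exact ⟨u, h1.1, rfl⟩
    · exact ⟨u, h1.1, rfl⟩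

theorem disj (h : Po r) (x y : Fin n) : Disjoint (EE r x y) (KK r x y) := by
  rw [Finset.disjoint_left]
  intro s h1 h2
  rw [mem_EE] at h1
  rw [mem_KK] at h2
  obtain ⟨u, hu, rfl⟩ := h1
  obtain ⟨v, hv, hvu⟩ := h2
  have := hook_inj h hv.1 hu.1 hvu
  subst this
  exact hu.2 hv.2

/-- the tail sum -/
noncomputable def tl (r : Fin n → Fin n → Prop) (m : ℕ) (x : Fin n) : ℝ :=
  ∑ s ∈ (SS r x).filter (fun s => m < s), 1 / (s : ℝ)

theorem tl_eq (h : Po r) (m : ℕ) (x y : Fin n) :
    tl r m x = ∑ s ∈ (EE r x y).filter (fun s => m < s), 1 / (s : ℝ)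
      + ∑ s ∈ (KK r x y).filter (fun s => m < s), 1 / (s : ℝ) := by
  unfold tl
  rw [SS_eq x y, Finset.filter_union, Finset.sum_union]
  exact Finset.disjoint_filter_filter (disj h x y)

theorem tl_sub (h : Po r) (m : ℕ) (x y : Fin n) :
    tl r m x - tl r m y = ∑ s ∈ (EE r x y).filter (fun s => m < s), 1 / (s : ℝ)
      - ∑ s ∈ (EE r y x).filter (fun s => m < s), 1 / (s : ℝ) := by
  rw [tl_eq h m x y, tl_eq h m y x, KK_comm y x]
  ring

theorem num_small {m : ℕ} (hm : 6 ≤ m) {t : ℝ} (ht : t ≤ -(m / 2 : ℝ) + 1 / m) :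
    2 * √m * Real.exp t ≤ 1 / 2 := by
  have hm' : (6 : ℝ) ≤ m := by exact_mod_cast hm
  set y : ℝ := m / 2 - 1 / m with hy
  have h1m : 1 / (m : ℝ) ≤ 1 / 6 := one_div_le_one_div_of_le (by norm_num) hm'
  have hy1 : (m : ℝ) / 2 - 1 / 6 ≤ y := by rw [hy]; linarith
  have hy2 : (17 / 6 : ℝ) ≤ y := by linarith
  have hy0 : 0 ≤ y := by linarith
  have h1 := Real.sum_le_exp_of_nonneg hy0 4
  have e4 : ∑ i ∈ Finset.range 4, y ^ i / (i.factorial : ℝ) = 1 + y + y ^ 2 / 2 + y ^ 3 / 6 := by
    simp [Finset.sum_range_succ, Nat.factorial]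
  rw [e4] at h1
  have h2 : √(m : ℝ) ≤ m / 5 + 5 / 4 := by
    apply Real.sqrt_le_iff.2
    constructor
    · positivity
    · nlinarith [sq_nonneg ((m : ℝ) / 5 - 5 / 4)]
  have h3 : 4 * √(m : ℝ) ≤ Real.exp y := by
    have h4 : (m : ℝ) ≤ 2 * y + 1 / 3 := by linarith
    have h5 : 4 * √(m : ℝ) ≤ 8 / 5 * y + 4 / 15 + 5 := by linarith
    refine le_trans (le_trans h5 ?_) h1
    have h6 : (17 / 6) * y ≤ y ^ 2 := by nlinarith
    have h7 : (17 / 6) ^ 2 * y ≤ y ^ 3 := by nlinarith
    linarith
  have h4 : Real.exp t ≤ Real.exp (-y) := Real.exp_le_exp.2 (by rw [hy]; linarith)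
  have h5 : 0 ≤ √(m : ℝ) := Real.sqrt_nonneg _
  calc 2 * √m * Real.exp t ≤ 2 * √m * Real.exp (-y) := by gcongr
    _ = (4 * √m) * Real.exp (-y) / 2 := by ring
    _ ≤ Real.exp y * Real.exp (-y) / 2 := by gcongr
    _ = 1 / 2 := by rw [← Real.exp_add]; simp

theorem window (h : Po r) {m : ℕ} (hm : 6 ≤ m) (hbal : balance r < 1 / 2 - 5 / (2 * m))
    {x y : Fin n} (hx : Leaf r x) (hy : Leaf r y) (hne : x ≠ y) :
    tl r m x - tl r m y ≤ m := by
  by_contra hgt
  rw [not_le, tl_sub h] at hgt
  set ε : ℝ := 5 / (2 * m) with hε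
  have hm' : (6 : ℝ) ≤ m := by exact_mod_cast hm
  have hε0 : 0 ≤ ε := by rw [hε]; positivity
  have hε1 : 1 / (m + 2 : ℝ) ≤ 2 * ε := by
    have e : 2 * ε = 5 / m := by rw [hε]; field_simp
    rw [e, div_le_div_iff₀ (by positivity) (by positivity)]
    linarith
  have hyx : ¬ r y x := fun h1 => hne (hx y h1).symm
  have hxy : ¬ r x y := fun h1 => hne (hy x h1)
  have hEnd : EndOne (desc (EE r y x)) := endOne_EE h hy hxy
  have hPos : Pos (desc (EE r y x)) := pos_desc (zero_notMem_EE h y x)
  have key : ∀ k s, ((EE r x y).filter (fun t => s < t)).card = k → s ∈ EE r x y → m < s →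
      1 / 2 + ε < race (desc (EE r y x)) (desc ((EE r x y).filter (fun t => s ≤ t))) := by
    intro k
    induction k using Nat.strong_induction_on with
    | _ k ih =>
    intro s hk hs hms
    obtain ⟨z, ⟨hxz, hyz⟩, rfl⟩ := mem_EE.1 hs
    have hzy : ¬ r z y := fun h1 => hxy (h.trans _ _ _ hxz h1)
    have hP := gap h hbal hyz hzy
    rw [prob_eq_race h hyz hzy, XX_eq, XX_eq, EE_anc h hxz, EE_anc' h hxz hyz] at hP
    rcases hP with hP | hP
    · exfalso
      have hms' : (m : ℝ) + 1 ≤ hook r z := by exact_mod_cast hms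
      rcases ((EE r x y).filter (fun t => hook r z < t)).eq_empty_or_nonempty with h0 | h0
      · have e : (EE r x y).filter (fun t => hook r z ≤ t) = {hook r z} := by
          ext t
          rw [Finset.mem_filter, Finset.mem_singleton]
          constructor
          · rintro ⟨h1, h2⟩
            by_contra h3
            have : t ∈ (EE r x y).filter (fun t => hook r z < t) := by
              rw [Finset.mem_filter]
              exact ⟨h1, by omega⟩
            rw [h0] at this
            simp at this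
          · rintro rfl
            exact ⟨hs, le_rfl⟩
        rw [e, desc_singleton] at hP
        have h1 := race_append_le (h := hook r z) (hook_pos h z) (desc (EE r y x)) []
          (Or.inr hEnd) hPos (by intro a ha; simp at ha)
        obtain ⟨a, A, hA⟩ := List.exists_cons_of_ne_nil hEnd.ne_nil
        rw [List.nil_append, hA, race_nil_right, ← hA] at h1
        have h2 : 1 / (1 + (hook r z : ℝ)) ≤ 1 / 2 := by
          apply one_div_le_one_div_of_le (by norm_num)
          linarith
        linarith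
      · set s' := ((EE r x y).filter (fun t => hook r z < t)).min' h0 with hs'
        have hs'1 : s' ∈ (EE r x y).filter (fun t => hook r z < t) := Finset.min'_mem _ _
        rw [Finset.mem_filter] at hs'1
        have e : (EE r x y).filter (fun t => hook r z ≤ t)
            = (EE r x y).filter (fun t => s' ≤ t) ∪ {hook r z} := by
          ext t
          rw [Finset.mem_union, Finset.mem_filter, Finset.mem_filter, Finset.mem_singleton]
          constructor
          · rintro ⟨h1, h2⟩
            rcases eq_or_lt_of_le h2 with h3 | h3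
            · exact Or.inr h3.symm
            · exact Or.inl ⟨h1, Finset.min'_le _ _ (by rw [Finset.mem_filter]; exact ⟨h1, h3⟩)⟩
          · rintro (⟨h1, h2⟩ | rfl)
            · exact ⟨h1, (hs'1.2.le).trans h2⟩
            · exact ⟨hs, le_rfl⟩
        have hlt : ((EE r x y).filter (fun t => s' < t)).card < k := by
          rw [← hk]
          apply Finset.card_lt_card
          rw [Finset.ssubset_iff_of_subset]
          · refine ⟨s', by rw [Finset.mem_filter]; exact hs'1, ?_⟩
            rw [Finset.mem_filter]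
            rintro ⟨_, h3⟩
            exact lt_irrefl _ h3
          · intro t ht
            rw [Finset.mem_filter] at ht ⊢
            exact ⟨ht.1, hs'1.2.trans ht.2⟩
        have hih := ih _ hlt s' rfl hs'1.1 (hms.trans hs'1.2)
        rw [e, desc_append, desc_singleton] at hP
        · have h1 := race_append_le (h := hook r z) (hook_pos h z) (desc (EE r y x))
            (desc ((EE r x y).filter (fun t => s' ≤ t))) (Or.inr hEnd) hPos
            (pos_desc (fun h0 => zero_notMem_EE h x y (Finset.mem_filter.1 h0).1))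
          have h2 : 1 / (1 + (hook r z : ℝ)) ≤ 1 / (m + 2 : ℝ) := by
            apply one_div_le_one_div_of_le (by positivity)
            linarith
          linarith
        · intro a ha b hb
          rw [Finset.mem_filter] at ha
          rw [Finset.mem_singleton] at hb
          subst hb
          exact lt_of_lt_of_le hs'1.2 ha.2
    · exact hP
  set A := (EE r x y).filter (fun s => m < s) with hA
  have hAne : A.Nonempty := by
    rw [Finset.nonempty_iff_ne_empty]
    intro h0
    rw [h0, Finset.sum_empty] at hgt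
    have : 0 ≤ ∑ s ∈ (EE r y x).filter (fun s => m < s), 1 / (s : ℝ) :=
      Finset.sum_nonneg (fun s _ => by positivity)
    linarith
  set s0 := A.min' hAne with hs0
  have hs0A : s0 ∈ A := Finset.min'_mem _ _
  have hs0A' := Finset.mem_filter.1 hs0A
  have eA : (EE r x y).filter (fun t => s0 ≤ t) = A := by
    ext t
    rw [hA, Finset.mem_filter, Finset.mem_filter]
    constructor
    · rintro ⟨h1, h2⟩
      exact ⟨h1, lt_of_lt_of_le hs0A'.2 h2⟩
    · rintro ⟨h1, h2⟩
      exact ⟨h1, Finset.min'_le _ _ (by rw [hA, Finset.mem_filter]; exact ⟨h1, h2⟩)⟩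
  have h1 := key _ s0 rfl hs0A'.1 hs0A'.2
  rw [eA] at h1
  have h2 := race_small (m := m) (by omega) (zero_notMem_EE h y x)
    (A := A) (fun a ha => (Finset.mem_filter.1 ha).2)
  have h3 := num_small hm (t := 1 / 2 * ((∑ s ∈ (EE r y x).filter (fun s => m < s),
      1 / (s : ℝ)) - ∑ s ∈ A, 1 / (s : ℝ)) + 1 / m) (by linarith)
  linarith

/-- the pair with the same profile and close tails is balanced -/
theorem close_pair (h : Po r) {m : ℕ} (hm : 1 ≤ m) {x y : Fin n} (hx : Leaf r x)
    (hy : Leaf r y) (hne : x ≠ y)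
    (hprof : (SS r x).filter (fun s => s ≤ m) = (SS r y).filter (fun s => s ≤ m))
    (htl : |tl r m x - tl r m y| ≤ 1 / m) : 1 / 2 - 5 / (2 * m) ≤ balance r := by
  have hyx : ¬ r y x := fun h1 => hne (hx y h1).symm
  have hxy : ¬ r x y := fun h1 => hne (hy x h1)
  have hm' : (1 : ℝ) ≤ m := by exact_mod_cast hm
  have hsub : ∀ x y : Fin n, (SS r x).filter (fun s => s ≤ m) = (SS r y).filter (fun s => s ≤ m) →
      (EE r x y).filter (fun s => s ≤ m) ⊆ (EE r y x).filter (fun s => s ≤ m) := by
    intro x y hxy s hs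
    rw [Finset.mem_filter] at hs ⊢
    refine ⟨?_, hs.2⟩
    have h1 : s ∈ (SS r x).filter (fun s => s ≤ m) := by
      rw [Finset.mem_filter, SS_eq x y, Finset.mem_union]
      exact ⟨Or.inl hs.1, hs.2⟩
    rw [hxy, Finset.mem_filter, SS_eq y x, Finset.mem_union] at h1
    rcases h1.1 with h2 | h2
    · exact h2
    · rw [KK_comm] at h2
      exact absurd h2 (Finset.disjoint_left.1 (disj h x y) hs.1)
  have hC : (EE r x y).filter (fun s => s ≤ m) = (EE r y x).filter (fun s => s ≤ m) :=
    Finset.Subset.antisymm (hsub x y hprof) (hsub y x hprof.symm)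
  set C := (EE r x y).filter (fun s => s ≤ m) with hCdef
  set A := (EE r x y).filter (fun s => m < s) with hA
  set B := (EE r y x).filter (fun s => m < s) with hB
  have hCend : EndOne (desc C) := by
    apply endOne_desc
    · rw [hCdef, Finset.mem_filter, mem_EE]
      exact ⟨⟨x, ⟨h.refl x, hyx⟩, hook_leaf h hx⟩, hm⟩
    · intro h0
      exact zero_notMem_EE h x y (Finset.mem_filter.1 h0).1
  have hCpos : Pos (desc C) :=
    pos_desc (fun h0 => zero_notMem_EE h x y (Finset.mem_filter.1 h0).1)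
  have hApos : Pos (desc A) :=
    pos_desc (fun h0 => zero_notMem_EE h x y (Finset.mem_filter.1 h0).1)
  have hBpos : Pos (desc B) :=
    pos_desc (fun h0 => zero_notMem_EE h y x (Finset.mem_filter.1 h0).1)
  have hp : prob r x y = race (desc A ++ desc C) (desc B ++ desc C) := by
    rw [prob_eq_race h hxy hyx, XX_eq, XX_eq, desc_split m (EE r x y), desc_split m (EE r y x),
      ← hC]
  have h1 := race_close hCend hCpos hApos hBpos
  rw [← hp] at h1
  have hqA : qq (desc A) ≤ 1 / m := qq_desc_le hm (fun s hs => (Finset.mem_filter.1 hs).2)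
  have hqB : qq (desc B) ≤ 1 / m := qq_desc_le hm (fun s hs => (Finset.mem_filter.1 hs).2)
  have ht : tt (desc A) - tt (desc B) = tl r m x - tl r m y := by
    rw [tl_sub h, tt, tt, sum_desc, sum_desc]
  rw [ht] at h1
  have ht2 : (tl r m x - tl r m y) ^ 2 ≤ 1 / m := by
    rw [← sq_abs]
    have h2 : |tl r m x - tl r m y| ^ 2 ≤ (1 / (m : ℝ)) ^ 2 :=
      pow_le_pow_left₀ (abs_nonneg _) htl 2
    have h3 : (1 / (m : ℝ)) ^ 2 ≤ 1 / m := by
      rw [div_pow, one_pow]
      apply one_div_le_one_div_of_le (by positivity)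
      nlinarith
    linarith
  have h5 : |prob r x y - 1 / 2| ≤ 5 / (2 * m) := by
    have : (5 : ℝ) / (2 * m) = 1 / m + (1 / m + 1 / m + 1 / m) / 2 := by
      field_simp; norm_num
    linarith
  have h6 := prob_add h hxy hyx
  have h7 := le_balance r hxy hyx
  rw [abs_le] at h5
  refine le_trans (le_min ?_ ?_) h7
  · linarith [h5.1]
  · linarith [h5.2]

theorem exists_leaf (h : Po r) (a : Fin n) : ∃ x, Leaf r x ∧ r x a := by
  classical
  obtain ⟨x, hx, hmin⟩ := Finset.exists_min_image (univ.filter (fun u => r u a)) (hook r)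
    ⟨a, by simp [h.refl]⟩
  rw [Finset.mem_filter] at hx
  refine ⟨x, ?_, hx.2⟩
  intro u hux
  by_contra hne
  have h1 := hmin u (by rw [Finset.mem_filter]; exact ⟨Finset.mem_univ _, h.trans _ _ _ hux hx.2⟩)
  have h2 := hook_lt h hux hne
  omega

open Classical in
/-- the leaves -/
noncomputable def leaves (r : Fin n → Fin n → Prop) : Finset (Fin n) :=
  univ.filter (fun x => Leaf r x)

theorem mem_leaves {x : Fin n} : x ∈ leaves r ↔ Leaf r x := by
  classical
  unfold leaves
  simp

theorem card_leaves (h : Po r) {w : ℕ} (hw : HasWidth r w) : w ≤ (leaves r).card := by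
  classical
  obtain ⟨⟨s, hs, hanti⟩, _⟩ := hw
  rw [← hs]
  choose f hf using fun a => exists_leaf h a
  apply Finset.card_le_card_of_injOn f
  · intro a _
    exact mem_leaves.2 (hf a).1
  · intro a ha b hb hab
    by_contra hne
    have h1 := (hf a).2
    have h2 := (hf b).2
    rw [← hab] at h2
    rcases h.forest _ _ _ h1 h2 with h3 | h3
    · exact hanti a ha b hb hne h3
    · exact hanti b hb a ha (Ne.symm hne) h3

/-- **Lower bound.** -/
theorem lower (h : Po r) {m w : ℕ} (hm : 1 ≤ m) (hw : HasWidth r w)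
    (hmw : (m ^ 2 + 1) * 2 ^ m < w) : 1 / 2 - 5 / (2 * m) ≤ balance r := by
  classical
  by_cases h13 : m < 6
  · have h0 := balance_nonneg' r
    have : (1 / 2 : ℝ) ≤ 5 / (2 * m) := by
      have hm' : (0 : ℝ) < m := by exact_mod_cast hm
      have hm12 : (m : ℝ) ≤ 5 := by exact_mod_cast (by omega : m ≤ 5)
      rw [div_le_div_iff₀ (by norm_num) (by positivity)]
      linarith
    linarith
  · rw [not_lt] at h13
    by_contra hlt
    rw [not_le] at hlt
    have hm' : (6 : ℝ) ≤ m := by exact_mod_cast h13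
    have hcard := card_leaves h hw
    have hne : (leaves r).Nonempty := Finset.card_pos.1 (by
      have : 0 ≤ (m ^ 2 + 1) * 2 ^ m := Nat.zero_le _
      omega)
    obtain ⟨x0, hx0, hmin⟩ := Finset.exists_min_image (leaves r) (tl r m) hne
    set φ : Fin n → Finset ℕ × ℕ := fun x =>
      ((SS r x).filter (fun s => s ≤ m), ⌊(m : ℝ) * (tl r m x - tl r m x0)⌋₊) with hφ
    have hmaps : ∀ x ∈ leaves r, φ x ∈ (Finset.Icc 1 m).powerset ×ˢ Finset.range (m ^ 2 + 1) := by
      intro x hx
      rw [Finset.mem_product, Finset.mem_powerset, Finset.mem_range]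
      constructor
      · intro s hs
        rw [Finset.mem_filter, mem_SS] at hs
        obtain ⟨⟨u, _, rfl⟩, hs2⟩ := hs
        rw [Finset.mem_Icc]
        exact ⟨hook_pos h u, hs2⟩
      · have h1 : tl r m x - tl r m x0 ≤ m := by
          by_cases hxx : x = x0
          · rw [hxx, sub_self]; positivity
          · exact window h h13 hlt (mem_leaves.1 hx) (mem_leaves.1 hx0) hxx
        have h2 : (m : ℝ) * (tl r m x - tl r m x0) ≤ ((m ^ 2 : ℕ) : ℝ) := by
          push_cast
          nlinarith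
        have h3 := Nat.floor_le_floor h2
        rw [Nat.floor_natCast] at h3
        exact Nat.lt_succ_of_le h3
    have hcard2 : ((Finset.Icc 1 m).powerset ×ˢ Finset.range (m ^ 2 + 1)).card
        < (leaves r).card := by
      rw [Finset.card_product, Finset.card_powerset, Nat.card_Icc, Finset.card_range]
      have : 2 ^ (m + 1 - 1) * (m ^ 2 + 1) = (m ^ 2 + 1) * 2 ^ m := by
        rw [Nat.add_sub_cancel, mul_comm]
      omega
    obtain ⟨x, hx, y, hy, hxy, heq⟩ :=
      Finset.exists_ne_map_eq_of_card_lt_of_maps_to hcard2 hmaps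
    have heq1 : (SS r x).filter (fun s => s ≤ m) = (SS r y).filter (fun s => s ≤ m) :=
      congrArg Prod.fst heq
    have heq2 : ⌊(m : ℝ) * (tl r m x - tl r m x0)⌋₊ = ⌊(m : ℝ) * (tl r m y - tl r m x0)⌋₊ :=
      congrArg Prod.snd heq
    have hx' : 0 ≤ (m : ℝ) * (tl r m x - tl r m x0) :=
      mul_nonneg (by positivity) (by linarith [hmin x hx])
    have hy' : 0 ≤ (m : ℝ) * (tl r m y - tl r m x0) :=
      mul_nonneg (by positivity) (by linarith [hmin y hy])
    have b1 := Nat.floor_le hx'
    have b2 := Nat.lt_floor_add_one ((m : ℝ) * (tl r m x - tl r m x0))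
    have b3 := Nat.floor_le hy'
    have b4 := Nat.lt_floor_add_one ((m : ℝ) * (tl r m y - tl r m x0))
    rw [heq2] at b1 b2
    have hdiff : |tl r m x - tl r m y| ≤ 1 / m := by
      rw [le_div_iff₀ (by positivity)]
      have e : |tl r m x - tl r m y| * m = |(m : ℝ) * (tl r m x - tl r m y)| := by
        rw [abs_mul, abs_of_pos (by positivity : (0 : ℝ) < m)]
        ring
      rw [e, abs_le]
      constructor <;> nlinarith
    exact absurd (close_pair h hm (mem_leaves.1 hx) (mem_leaves.1 hy) hxy heq1 hdiff)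
      (not_le.2 hlt)

end Pool.Agent.Helper19.Forest
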