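import Mathlib
import Pool.Agent.Helper19.Forest.Lower
import Pool.Agent.Helper1.BalanceProof

/-!
The posets built in `Pool.Agent.Helper1.BalanceProof` are rooted forests
(problem MP_c890a7_co).
-/

set_option autoImplicit false

namespace Pool.Agent.Helper19.Forest

open Finset Pool.Agent.Helper1.Balance

variable {m : ℕ}

theorem topR_forest (r : Fin m → Fin m → Prop) (h : IsForest r) : IsForest (topR r) := by
  intro a b c hab hac
  induction b using Fin.lastCases with
  | last =>
    induction c using Fin.lastCases with
    | last => exact Or.inl (topR_last r _)
    | cast c => exact Or.inr (topR_last r _)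
  | cast b =>
    induction c using Fin.lastCases with
    | last => exact Or.inl (topR_last r _)
    | cast c =>
      induction a using Fin.lastCases with
      | last => exact absurd hab (topR_last_left r b)
      | cast a =>
        rw [topR_cast] at hab hac ⊢
        rw [topR_cast]
        exact h a b c hab hac

theorem isoR_forest (r : Fin m → Fin m → Prop) (hr : ∀ a, r a a) (h : IsForest r) :
    IsForest (isoR r) := by
  intro a b c hab hac
  induction a using Fin.lastCases with
  | last =>
    induction b using Fin.lastCases with
    | last =>
      induction c using Fin.lastCases with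
      | last => exact Or.inl (Or.inl rfl)
      | cast c => exact absurd hac (isoR_last_left r c)
    | cast b => exact absurd hab (isoR_last_left r b)
  | cast a =>
    induction b using Fin.lastCases with
    | last => exact absurd hab (isoR_last_right r a)
    | cast b =>
      induction c using Fin.lastCases with
      | last => exact absurd hac (isoR_last_right r a)
      | cast c =>
        rw [isoR_cast r hr] at hab hac ⊢
        rw [isoR_cast r hr]
        exact h a b c hab hac

/-- one step of the construction -/
theorem St_step {w m : ℕ} {r : Fin m → Fin m → Prop} {Z : Finset (Fin m)} {γ : ℝ}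
    (hw : 2 ≤ w) (h : St w m r Z 0 γ) (hF : IsForest r) (hγ : γ ≤ 1 / (4 * (m + 3))) :
    ∃ (m' : ℕ) (r' : Fin m' → Fin m' → Prop) (Z' : Finset (Fin m')), m' ≤ m + 3 ∧
      St (w + 1) m' r' Z' 0 γ ∧ IsForest r' := by
  have hm : 2 ≤ m := hw.trans h.le
  have hN := h.npos
  by_cases hA : ∀ c, c ∉ Z → 4 * H r c + N r ≤ 2 * (m + 2) * N r ∨
      2 * (m + 2) * N r + N r ≤ 4 * H r c
  · refine ⟨m + 1 + 1, _, _, by omega, (h.top (by omega)).iso ?_ ?_,
      isoR_forest _ (topR_poset r h.poset).1 (topR_forest r hF)⟩
    · refine hγ.trans ?_
      push_cast
      apply one_div_le_one_div_of_le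
      · positivity
      · linarith
    · intro q
      induction q using Fin.lastCases with
      | last =>
        right
        rw [H_top_last, N_top]
        push_cast
        nlinarith
      | cast q =>
        rw [H_top, N_top]
        by_cases hq : q ∈ Z
        · left
          have := h.low q hq
          push_cast
          nlinarith
        · have := hA q hq
          push_cast
          rcases this with h1 | h1
          · left; linarith
          · right; linarith
  · push Not at hA
    obtain ⟨c, hc, hc1, hc2⟩ := hA
    refine ⟨m + 1 + 1 + 1, _, _, by omega,
      ((h.top (by omega)).top (by omega)).iso ?_ ?_,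
      isoR_forest _ (topR_poset _ (topR_poset r h.poset)).1 (topR_forest _ (topR_forest r hF))⟩
    · refine hγ.trans ?_
      push_cast
      apply one_div_le_one_div_of_le
      · positivity
      · linarith
    · intro q
      induction q using Fin.lastCases with
      | last =>
        right
        rw [H_top_last, N_top, N_top]
        push_cast
        nlinarith
      | cast q =>
        rw [H_top, N_top]
        induction q using Fin.lastCases with
        | last =>
          right
          rw [H_top_last, N_top]
          push_cast
          nlinarith
        | cast q =>
          rw [H_top, N_top]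
          by_cases hq : q ∈ Z
          · left
            have := h.low q hq
            push_cast
            nlinarith
          · by_cases hqc : q = c
            · subst hqc
              left
              push_cast
              nlinarith
            · rcases h.chain q c hq hc with h1 | h1
              · have := H_lt r q c h1 hqc
                left
                push_cast
                nlinarith
              · have := H_lt r c q h1 (Ne.symm hqc)
                right
                push_cast
                nlinarith

theorem St_two : ∃ (m' : ℕ) (r' : Fin m' → Fin m' → Prop) (Z' : Finset (Fin m')), m' ≤ 3 ∧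
      St 2 m' r' Z' 0 (1 / 12) ∧ IsForest r' := by
  have h := St.base (1 / 12)
  refine ⟨_, _, _, le_rfl, (h.top le_rfl).iso ?_ ?_,
    isoR_forest _ (topR_poset _ h.poset).1 (topR_forest _ (fun _ _ _ _ _ => Or.inl trivial))⟩
  · norm_num
  · intro q
    have hH : H (fun _ _ => True : Fin 1 → Fin 1 → Prop) 0 =
        N (fun _ _ => True : Fin 1 → Fin 1 → Prop) := by
      unfold H
      rw [N_eq]
      refine Finset.sum_congr rfl ?_
      intro σ _
      simp
    induction q using Fin.lastCases with
    | last =>
      right
      rw [H_top_last, N_top]
      push_cast
      nlinarith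
    | cast q =>
      left
      rw [H_top, N_top, Subsingleton.elim q 0, hH]
      push_cast
      nlinarith

theorem exists_St_forest (w : ℕ) (hw : 2 ≤ w) :
    ∃ (m : ℕ) (r : Fin m → Fin m → Prop) (Z : Finset (Fin m)), m ≤ 3 * (w - 1) ∧
      St w m r Z 0 (1 / (12 * ((w : ℝ) - 1))) ∧ IsForest r := by
  induction w, hw using Nat.le_induction with
  | base =>
    obtain ⟨m, r, Z, h1, h2, h3⟩ := St_two
    exact ⟨m, r, Z, by omega, h2.mono (by norm_num), h3⟩
  | succ w hw ih =>
    obtain ⟨m, r, Z, h1, h2, hF⟩ := ih
    have hw' : (2 : ℝ) ≤ w := by exact_mod_cast hw
    have h3 : (1 : ℝ) / (12 * (((w + 1 : ℕ) : ℝ) - 1)) ≤ 1 / (12 * ((w : ℝ) - 1)) := by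
      push_cast
      apply one_div_le_one_div_of_le
      · linarith
      · linarith
    obtain ⟨m', r', Z', h4, h5, h6⟩ := St_step hw (h2.mono h3) hF (by
      push_cast
      apply one_div_le_one_div_of_le
      · positivity
      · have : (m : ℝ) ≤ 3 * (w - 1) := by
          have h6 : m + 3 ≤ 3 * w := by omega
          have h7 : ((m + 3 : ℕ) : ℝ) ≤ ((3 * w : ℕ) : ℝ) := by exact_mod_cast h6
          push_cast at h7
          linarith
        linarith)
    exact ⟨m', r', Z', by omega, h5, h6⟩

end Pool.Agent.Helper19.Forest
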