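import Mathlib
import Pool.Agent.Helper1.BalanceDefs
import Pool.Agent.Helper1.BalanceProof
import Pool.Agent.Helper19.Forest.Lower
import Pool.Agent.Helper19.Forest.Upper

/-!
# Rooted forests: the minimal balance constants tend to `1 / 2`

For rooted forests (posets in which the elements above any given element form a chain) the
version of the Kahn-Saks conjecture holds, with an explicit rate, and the minimal balance
constants `δ^F_w` of rooted forests of width `w` satisfy `δ^F_w < δ^F_{w'}` for all `w'` larger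
than an explicit function of `w`.
-/

set_option autoImplicit false

namespace Pool.Agent.Results.MP_c890a7_co.RootedForests

open Pool.Agent.Helper1.Balance

/-- `r` is a rooted forest order: any two elements above a common element are comparable,
that is, every principal up-set is a chain. -/
def IsRootedForest {n : ℕ} (r : Fin n → Fin n → Prop) : Prop :=
  ∀ a b c : Fin n, r a b → r a c → r b c ∨ r c b

/-- `δ^F_w`: the infimum of the balance constants of the finite rooted forests of width `w`. -/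
noncomputable def deltaForest (w : ℕ) : ℝ :=
  sInf {d : ℝ | ∃ (n : ℕ) (r : Fin n → Fin n → Prop),
    IsPoset r ∧ IsRootedForest r ∧ HasWidth r w ∧ d = balance r}

theorem bddBelow_set (w : ℕ) : BddBelow {d : ℝ | ∃ (n : ℕ) (r : Fin n → Fin n → Prop),
    IsPoset r ∧ IsRootedForest r ∧ HasWidth r w ∧ d = balance r} := by
  refine ⟨0, ?_⟩
  rintro d ⟨n, r, _, _, _, rfl⟩
  exact balance_nonneg r

theorem upper (w : ℕ) (hw : 2 ≤ w) : deltaForest w ≤ 1 / 2 - 1 / (12 * ((w : ℝ) - 1)) := by
  obtain ⟨m, r, Z, _, h, hF⟩ := Pool.Agent.Helper19.Forest.exists_St_forest w hw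
  have hw' : (2 : ℝ) ≤ w := by exact_mod_cast hw
  have h1 : balance r ≤ 1 / 2 - 1 / (12 * ((w : ℝ) - 1)) := by
    unfold balance
    apply Real.sSup_le
    · rintro t ⟨x, y, h1, h2, rfl⟩
      exact h.bal x y h1 h2
    · have : 1 / (12 * ((w : ℝ) - 1)) ≤ 1 / 12 := by
        apply one_div_le_one_div_of_le
        · norm_num
        · linarith
      linarith
  exact (csInf_le (bddBelow_set w) ⟨m, r, h.poset, hF, h.width, rfl⟩).trans h1

theorem upper_one : deltaForest 1 ≤ 0 := by
  refine csInf_le (bddBelow_set 1) ⟨1, fun _ _ => True, ?_, ?_, ?_, ?_⟩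
  · exact ⟨fun _ => trivial, fun _ _ _ _ _ => trivial, fun a b _ _ => Subsingleton.elim a b⟩
  · exact fun _ _ _ _ _ => Or.inl trivial
  · refine ⟨⟨{0}, rfl, ?_⟩, ?_⟩
    · intro a _ b _ hab
      exact absurd (Subsingleton.elim a b) hab
    · intro s _
      exact (Finset.card_le_univ s).trans (by simp)
  · unfold balance
    have : {t : ℝ | ∃ x y : Fin 1, ¬ True ∧ ¬ True ∧
        t = min (prob (fun _ _ : Fin 1 => True) x y) (prob (fun _ _ : Fin 1 => True) y x)} = ∅ := by
      ext t
      simp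
    rw [this, Real.sSup_empty]

theorem lower (m w : ℕ) (hm : 1 ≤ m) (hmw : (m ^ 2 + 1) * 2 ^ m < w) :
    1 / 2 - 5 / (2 * (m : ℝ)) ≤ deltaForest w := by
  have hw : 2 ≤ w := by
    have h1 : 1 ≤ 2 ^ m := Nat.one_le_two_pow
    have h2 : 1 ≤ m ^ 2 := Nat.one_le_pow _ _ hm
    nlinarith
  obtain ⟨k, r, Z, _, h, hF⟩ := Pool.Agent.Helper19.Forest.exists_St_forest w hw
  refine le_csInf ⟨balance r, k, r, h.poset, hF, h.width, rfl⟩ ?_
  rintro d ⟨n, r', h1, h2, h3, rfl⟩
  exact Pool.Agent.Helper19.Forest.lower (Pool.Agent.Helper19.Forest.po_of h1 h2) hm h3 hmw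

/-- **Rooted forests.**
* (explicit Kahn-Saks for forests) if `w > (m² + 1) 2^m` then `δ^F_w ≥ 1/2 - 5/(2m)`;
* `δ^F_w ≤ 1/2 - 1/(12 (w - 1))` for `w ≥ 2`;
* `δ^F_w < δ^F_{w'}` for all `w ≥ 1` and all `w' > ((30 w)² + 1) 2^(30 w)`;
* `δ^F_w → 1/2` as `w → ∞`. -/
theorem result :
    (∀ m w : ℕ, 1 ≤ m → (m ^ 2 + 1) * 2 ^ m < w →
      1 / 2 - 5 / (2 * (m : ℝ)) ≤ deltaForest w) ∧
    (∀ w : ℕ, 2 ≤ w → deltaForest w ≤ 1 / 2 - 1 / (12 * ((w : ℝ) - 1))) ∧
    (∀ w w' : ℕ, 1 ≤ w → ((30 * w) ^ 2 + 1) * 2 ^ (30 * w) < w' →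
      deltaForest w < deltaForest w') ∧
    Filter.Tendsto deltaForest Filter.atTop (nhds (1 / 2)) := by
  refine ⟨lower, upper, ?_, ?_⟩
  · intro w w' hw hw'
    have h1 := lower (30 * w) w' (by omega) hw'
    push_cast at h1
    rcases Nat.lt_or_ge w 2 with h2 | h2
    · have h3 : w = 1 := by omega
      subst h3
      have h4 := upper_one
      norm_num at h1
      linarith
    · have h3 := upper w h2
      have hw2 : (2 : ℝ) ≤ w := by exact_mod_cast h2
      have h4 : (5 : ℝ) / (2 * (30 * w)) < 1 / (12 * (w - 1)) := by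
        rw [div_lt_div_iff₀ (by positivity) (by linarith)]
        linarith
      linarith
  · rw [Metric.tendsto_atTop]
    intro ε hε
    obtain ⟨m, hm⟩ := exists_nat_gt (5 / (2 * ε))
    have hm0 : (0 : ℝ) < m := lt_trans (by positivity) hm
    have hm1 : 1 ≤ m := by exact_mod_cast hm0
    refine ⟨(m ^ 2 + 1) * 2 ^ m + 2, fun w hw => ?_⟩
    have h1 := lower m w hm1 (by omega)
    have h2 := upper w (by omega)
    have hw2 : (2 : ℝ) ≤ w := by exact_mod_cast (by omega : 2 ≤ w)
    have h3 : (5 : ℝ) / (2 * m) < ε := by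
      rw [div_lt_iff₀ (by positivity)] at hm ⊢
      nlinarith
    have h4 : (0 : ℝ) < 1 / (12 * ((w : ℝ) - 1)) := by
      apply div_pos one_pos
      linarith
    rw [Real.dist_eq, abs_lt]
    constructor <;> linarith

end Pool.Agent.Results.MP_c890a7_co.RootedForests
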